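import Pool.Agent.Helper35.TF.Defs
import Pool.Agent.Helper35.TT.FlatPt

/-!
TF-15 AffEx. `exists_affine` (`TT/FlatPt.lean`) for isometric actions on proper CAT(0) spaces for which all convex Lipschitz functions invariant up
to constants are constant (the same proof).
-/

set_option autoImplicit false

namespace TitsLF

universe u v

variable {G : Type u} {X : Type v} [Group G] [MetricSpace X] [MulAction G X]

private theorem l1_bound {α : Type u} (f : α →₀ ℝ) (F : α → ℝ) {C : ℝ} (hF : ∀ g, |F g| ≤ C) :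
    |f.sum fun g a => a * F g| ≤ l1 f * C := by
  unfold l1 Finsupp.sum
  refine le_trans (Finset.abs_sum_le_sum_abs _ _) ?_
  rw [Finset.sum_mul]
  refine Finset.sum_le_sum fun g _ => ?_
  rw [abs_mul]
  exact mul_le_mul_of_nonneg_left (hF g) (abs_nonneg _)

private theorem l1_nonneg {α : Type u} (f : α →₀ ℝ) (h0 : ∀ g, 0 ≤ f g)
    (h1 : (f.sum fun _ r => r) = 1) : l1 f = 1 := by
  rw [← h1]
  unfold l1 Finsupp.sum
  exact Finset.sum_congr rfl fun g _ => abs_of_nonneg (h0 g)

theorem exists_affine_w (h : WAct G X)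
    (hqc : ∀ (A : X → ℝ) (L : ℝ), MConvex A → (∀ x y, |A x - A y| ≤ L * dist x y) → QInv G A →
      ∀ x y, A x = A y) (hR : Reiter G) (o : X) (M : Set (X → ℝ))
    (hM : IsClosed M) (hne : M.Nonempty) (hsub : ∀ f ∈ M, IsBus f ∧ f o = 0)
    (hinv : ∀ (g : G), ∀ f ∈ M, tr o g f ∈ M) : ∃ f ∈ M, MAffine f := by
  classical
  have hcat : CAT X := h.cat
  obtain ⟨h₀, hh₀⟩ := hne
  obtain ⟨k, hk⟩ : ∃ k : G → X → ℝ, ∀ g x, k g x = h₀ (g • x) - h₀ (g • o) := ⟨_, fun _ _ => rfl⟩
  have hkM : ∀ g, k g ∈ M := by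
    intro g
    have h1 := hinv g⁻¹ h₀ hh₀
    have h2 : tr o g⁻¹ h₀ = k g := by
      funext x
      rw [hk]
      simp only [tr, inv_inv]
    rwa [h2] at h1
  have hkb : ∀ g, IsBus (k g) := fun g => (hsub _ (hkM g)).1
  have hk0 : ∀ g, k g o = 0 := fun g => (hsub _ (hkM g)).2
  have hch : ∀ i : Finset G × ℕ, ∃ f : G →₀ ℝ, (∀ g, 0 ≤ f g) ∧ (f.sum fun _ r => r) = 1 ∧
      ∀ s ∈ i.1, l1 (f.mapDomain (fun g => g * s) - f) ≤ 1 / ((i.2 : ℝ) + 1) :=
    fun i => hR i.1 _ (by positivity)
  choose f hf0 hf1 hf2 using hch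
  obtain ⟨A, hA⟩ : ∃ A : Finset G × ℕ → X → ℝ,
      ∀ i x, A i x = (f i).sum fun g a => a * k g x := ⟨_, fun _ _ => rfl⟩
  have hAb : ∀ i x, |A i x| ≤ dist x o := by
    intro i x
    rw [hA]
    have h1 := l1_bound (f i) (fun g => k g x) (C := dist x o) (fun g => by
      have h2 := (hkb g).lip x o
      rwa [hk0, sub_zero] at h2)
    rwa [l1_nonneg (f i) (hf0 i) (hf1 i), one_mul] at h1
  have hdiff : ∀ i x y, A i x - A i y = (f i).sum fun g a => a * (k g x - k g y) := by
    intro i x y
    rw [hA, hA]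
    unfold Finsupp.sum
    rw [← Finset.sum_sub_distrib]
    exact Finset.sum_congr rfl fun g _ => by ring
  have hconv : ∀ i x y m, IsMid x y m → A i m ≤ (A i x + A i y) / 2 := by
    intro i x y m hm'
    rw [hA, hA, hA]
    unfold Finsupp.sum
    rw [← Finset.sum_add_distrib, Finset.sum_div]
    refine Finset.sum_le_sum fun g _ => ?_
    have h1 := (hkb g).conv x y m hm'
    have h2 := hf0 i g
    nlinarith
  have hlip : ∀ i x y, |A i x - A i y| ≤ dist x y := by
    intro i x y
    rw [hdiff]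
    have h1 := l1_bound (f i) (fun g => k g x - k g y) (C := dist x y)
      (fun g => (hkb g).lip x y)
    rwa [l1_nonneg (f i) (hf0 i) (hf1 i), one_mul] at h1
  have hinvA : ∀ (i : Finset G × ℕ) (s : G), s ∈ i.1 → ∀ x y,
      |A i (s • x) - A i (s • y) - (A i x - A i y)| ≤ 1 / ((i.2 : ℝ) + 1) * dist x y := by
    intro i s hs x y
    have h1 : A i (s • x) - A i (s • y) =
        ((f i).mapDomain (fun g => g * s)).sum fun g a => a * (k g x - k g y) := by
      rw [hdiff, Finsupp.sum_mapDomain_index (fun g => zero_mul _)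
        (fun g a b => add_mul a b _)]
      unfold Finsupp.sum
      refine Finset.sum_congr rfl fun g _ => ?_
      change f i g * (k g (s • x) - k g (s • y)) = f i g * (k (g * s) x - k (g * s) y)
      rw [hk, hk, hk, hk, smul_smul, smul_smul]
      ring
    have h2 : A i (s • x) - A i (s • y) - (A i x - A i y) =
        ((f i).mapDomain (fun g => g * s) - f i).sum fun g a => a * (k g x - k g y) := by
      rw [h1, hdiff, Finsupp.sum_sub_index (fun g a b => sub_mul a b _)]
    rw [h2]
    have h3 := l1_bound ((f i).mapDomain (fun g => g * s) - f i) (fun g => k g x - k g y)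
      (C := dist x y) (fun g => (hkb g).lip x y)
    exact h3.trans (mul_le_mul_of_nonneg_right (hf2 i s hs) dist_nonneg)
  -- the limit
  obtain ⟨U, hU⟩ : ∃ U : Ultrafilter (Finset G × ℕ),
      (U : Filter (Finset G × ℕ)) ≤ Filter.atTop := ⟨Ultrafilter.of _, Ultrafilter.of_le _⟩
  have hcomp : IsCompact (Set.pi Set.univ (fun x : X => Set.Icc (-dist x o) (dist x o))) :=
    isCompact_univ_pi fun x => isCompact_Icc
  obtain ⟨B, _, hB'⟩ := isCompact_iff_ultrafilter_le_nhds.1 hcomp (U.map A) (by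
    rw [Filter.le_principal_iff, Ultrafilter.coe_map, Filter.mem_map]
    refine Filter.univ_mem' fun i => ?_
    intro x _
    exact abs_le.1 (hAb i x))
  have hlim : ∀ x, Filter.Tendsto (fun i => A i x) U (nhds (B x)) := fun x =>
    (tendsto_pi_nhds.1 (show Filter.Tendsto A U (nhds B) from hB')) x
  have hBconv : MConvex B := by
    intro x y m hm'
    exact le_of_tendsto_of_tendsto' (hlim m) (((hlim x).add (hlim y)).div_const 2)
      (fun i => hconv i x y m hm')
  have hBlip : ∀ x y, |B x - B y| ≤ 1 * dist x y := by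
    intro x y
    rw [one_mul]
    exact le_of_tendsto' ((hlim x).sub (hlim y)).abs (fun i => hlip i x y)
  have hBq : QInv G B := by
    intro s x y
    have h1 : Filter.Tendsto (fun i => |A i (s • x) - A i (s • y) - (A i x - A i y)|) U
        (nhds |B (s • x) - B (s • y) - (B x - B y)|) :=
      (((hlim (s • x)).sub (hlim (s • y))).sub ((hlim x).sub (hlim y))).abs
    have h2 : Filter.Tendsto (fun i : Finset G × ℕ => 1 / ((i.2 : ℝ) + 1) * dist x y) U
        (nhds (0 * dist x y)) := by
      have h3 : Filter.Tendsto (fun i : Finset G × ℕ => i.2) Filter.atTop Filter.atTop := by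
        rw [← Filter.prod_atTop_atTop_eq]
        exact Filter.tendsto_snd
      exact ((tendsto_one_div_add_atTop_nhds_zero_nat.comp h3).mono_left hU).mul_const _
    rw [zero_mul] at h2
    have h4 : ∀ᶠ i : Finset G × ℕ in U, s ∈ i.1 := by
      apply hU
      filter_upwards [Filter.eventually_ge_atTop (({s} : Finset G), 0)] with i hi
      exact hi.1 (Finset.mem_singleton_self s)
    have h5 := le_of_tendsto_of_tendsto h1 h2 (h4.mono fun i hi => hinvA i s hi x y)
    have h6 := abs_eq_zero.1 (le_antisymm h5 (abs_nonneg _))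
    linarith
  have hBc : ∀ x y, B x = B y := fun x y => hqc B 1 hBconv hBlip hBq x y
  -- compactness
  have hMc : IsCompact M := (isCompact_bus h.prop o).of_isClosed_subset hM hsub
  have hfin := hMc.inter_iInter_nonempty
    (fun p : {p : (X × X × X) × ℝ // IsMid p.1.1 p.1.2.1 p.1.2.2 ∧ 0 < p.2} =>
      {q : X → ℝ | (q p.1.1.1 + q p.1.1.2.1) / 2 - q p.1.1.2.2 ≤ p.1.2})
    (fun p => isClosed_le (by fun_prop) continuous_const)
    (by
      intro u
      obtain ⟨W, hW⟩ : ∃ W : G → ℝ, ∀ g, W g = ∑ p ∈ u,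
        ((k g p.1.1.1 + k g p.1.1.2.1) / 2 - k g p.1.1.2.2) / p.1.2 := ⟨_, fun _ => rfl⟩
      have hterm : ∀ g, ∀ p ∈ u,
          0 ≤ ((k g p.1.1.1 + k g p.1.1.2.1) / 2 - k g p.1.1.2.2) / p.1.2 := by
        intro g p _
        have h1 := (hkb g).conv _ _ _ p.2.1
        exact div_nonneg (by linarith) p.2.2.le
      have hsumW : ∀ i, ((f i).sum fun g a => a * W g) =
          ∑ p ∈ u, ((A i p.1.1.1 + A i p.1.1.2.1) / 2 - A i p.1.1.2.2) / p.1.2 := by
        intro i
        have h1 : ∀ p : {p : (X × X × X) × ℝ // IsMid p.1.1 p.1.2.1 p.1.2.2 ∧ 0 < p.2},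
            ((A i p.1.1.1 + A i p.1.1.2.1) / 2 - A i p.1.1.2.2) / p.1.2 =
            ∑ g ∈ (f i).support,
              f i g * (((k g p.1.1.1 + k g p.1.1.2.1) / 2 - k g p.1.1.2.2) / p.1.2) := by
          intro p
          rw [hA, hA, hA]
          unfold Finsupp.sum
          rw [← Finset.sum_add_distrib, Finset.sum_div, ← Finset.sum_sub_distrib,
            Finset.sum_div]
          exact Finset.sum_congr rfl fun g _ => by ring
        rw [Finset.sum_congr rfl fun p _ => h1 p, Finset.sum_comm]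
        unfold Finsupp.sum
        refine Finset.sum_congr rfl fun g _ => ?_
        change f i g * W g = _
        rw [hW, Finset.mul_sum]
      have hWlim : Filter.Tendsto (fun i => (f i).sum fun g a => a * W g) U (nhds 0) := by
        have h1 : Filter.Tendsto (fun i => ∑ p ∈ u,
            ((A i p.1.1.1 + A i p.1.1.2.1) / 2 - A i p.1.1.2.2) / p.1.2) U
            (nhds (∑ p ∈ u, ((B p.1.1.1 + B p.1.1.2.1) / 2 - B p.1.1.2.2) / p.1.2)) :=
          tendsto_finsetSum _ fun p _ =>
            ((((hlim _).add (hlim _)).div_const 2).sub (hlim _)).div_const _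
        have h2 : ∑ p ∈ u, ((B p.1.1.1 + B p.1.1.2.1) / 2 - B p.1.1.2.2) / p.1.2 = 0 := by
          refine Finset.sum_eq_zero fun p _ => ?_
          rw [hBc p.1.1.1 p.1.1.2.2, hBc p.1.1.2.1 p.1.1.2.2]
          simp
        rw [h2] at h1
        refine h1.congr fun i => (hsumW i).symm
      obtain ⟨i, hi⟩ := (hWlim.eventually (gt_mem_nhds one_pos)).exists
      have hg : ∃ g, W g < 1 := by
        by_contra hcon
        push Not at hcon
        have h1 : (1 : ℝ) ≤ (f i).sum fun g a => a * W g := by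
          rw [← hf1 i]
          unfold Finsupp.sum
          refine Finset.sum_le_sum fun g _ => ?_
          have h2 := hf0 i g
          have h3 := hcon g
          nlinarith
        linarith
      obtain ⟨g, hg⟩ := hg
      refine ⟨k g, hkM g, ?_⟩
      rw [Set.mem_iInter₂]
      intro p hp
      change (k g p.1.1.1 + k g p.1.1.2.1) / 2 - k g p.1.1.2.2 ≤ p.1.2
      have h1 := Finset.single_le_sum (hterm g) hp
      rw [← hW] at h1
      have h2 : ((k g p.1.1.1 + k g p.1.1.2.1) / 2 - k g p.1.1.2.2) / p.1.2 ≤ 1 := by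
        linarith
      rwa [div_le_one p.2.2] at h2)
  obtain ⟨q, hqM, hq⟩ := hfin
  refine ⟨q, hqM, fun x y m hm' => ?_⟩
  have h1 := (hsub q hqM).1.conv x y m hm'
  have h2 : (q x + q y) / 2 - q m ≤ 0 := by
    refine le_of_forall_pos_le_add fun δ hδ => ?_
    rw [zero_add]
    rw [Set.mem_iInter] at hq
    exact hq ⟨((x, y, m), δ), hm', hδ⟩
  linarith

end TitsLF
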