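import Pool.Agent.Helper35.TF.Defs
import Pool.Agent.Helper35.TT.Minim
import Pool.Agent.Helper35.TT.FixFin

/-!
TF-01 Basic. Elementary facts.

PROOFS.
* `WAct.restrict`: the proof of `h99_act` in `TT/Minim.lean` (fields `ne`, `iso`, `cat`, `prop`), verbatim.
* `exists_exponent`: `finite_bdd` gives `N₀` with `Nat.card H ≤ N₀` for all finite subgroups; `N = N₀!`. If `g` has finite order, `H = Subgroup.zpowers g` is finite of order `orderOf g ≤ N₀`, so `orderOf g ∣ N₀!`
  (`Nat.dvd_factorial`), `orderOf_dvd_iff_pow_eq_one`.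
-/

set_option autoImplicit false

namespace TitsLF

universe u v

variable {G : Type u} {X : Type v} [Group G] [MetricSpace X] [MulAction G X]

theorem Act.wact (h : Act G X) : WAct G X := ⟨h.ne, h.iso, h.cat, h.prop⟩

theorem WAct.sub (h : WAct G X) (H : Subgroup G) : WAct H X :=
  ⟨h.ne, fun g x y => h.iso g x y, h.cat, h.prop⟩

theorem WAct.restrict (h : WAct G X) (C : SubMulAction G X) (hcl : IsClosed (C : Set X))
    (hne : (C : Set X).Nonempty) (hm : MClosed (C : Set X)) : WAct G C := by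
  have := h.cat
  refine ⟨?_, ?_, ?_, ?_⟩
  · obtain ⟨x, hx⟩ := hne
    exact ⟨⟨x, hx⟩⟩
  · intro g x y
    exact h.iso g x y
  · refine ⟨?_, ?_⟩
    · classical
      intro x y
      have hD : 0 ≤ dist (x : X) y := dist_nonneg
      have hmem : ∀ s ∈ Set.Icc (0:ℝ) (dist (x : X) y), s / dist (x : X) y ∈ Set.Icc (0:ℝ) 1 := by
        rintro s ⟨h0, h1⟩
        exact ⟨div_nonneg h0 hD, div_le_one_of_le₀ h1 hD⟩
      have hC : ∀ s ∈ Set.Icc (0:ℝ) (dist (x : X) y),
          seg (x : X) y (s / dist (x : X) y) ∈ (C : Set X) := fun s hs =>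
        hm.on_seg hcl x.2 y.2 (hmem s hs)
      obtain ⟨γ, hγ⟩ : ∃ γ : ℝ → C, ∀ s ∈ Set.Icc (0:ℝ) (dist (x : X) y),
          ((γ s : C) : X) = seg (x : X) y (s / dist (x : X) y) := by
        refine ⟨fun s => if hs : s ∈ Set.Icc (0:ℝ) (dist (x : X) y) then
          ⟨seg (x : X) y (s / dist (x : X) y), hC s hs⟩ else x, fun s hs => ?_⟩
        simp only [dif_pos hs]
      refine ⟨γ, ?_, ?_, ?_⟩
      · apply Subtype.ext
        rw [hγ 0 ⟨le_rfl, hD⟩, zero_div, seg_zero]
      · apply Subtype.ext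
        rw [Subtype.dist_eq, hγ _ ⟨hD, le_rfl⟩]
        by_cases h0 : dist (x : X) y = 0
        · rw [h0, div_zero, seg_zero]
          exact dist_eq_zero.1 h0
        · rw [div_self h0, seg_one]
      · intro s hs t ht
        rw [Subtype.dist_eq] at hs ht
        rw [Subtype.dist_eq, hγ s hs, hγ t ht, dist_seg _ _ (hmem s hs) (hmem t ht)]
        by_cases h0 : dist (x : X) y = 0
        · rw [h0] at hs ht
          have h1 : s = 0 := le_antisymm hs.2 hs.1
          have h2 : t = 0 := le_antisymm ht.2 ht.1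
          rw [h0, h1, h2]
          simp
        · rw [← sub_div, abs_div, abs_of_nonneg hD, div_mul_cancel₀ _ h0]
    · intro p q r m h1 h2
      exact CAT.cn (p : X) q r m h1 h2
  · intro x R
    have h1 : Metric.closedBall x R = (Subtype.val : C → X) ⁻¹' Metric.closedBall (x : X) R := by
      ext y
      rfl
    rw [h1]
    exact (hcl.isClosedEmbedding_subtypeVal).isCompact_preimage (h.prop x R)

theorem exists_exponent (h : Act G X) :
    ∃ N : ℕ, 0 < N ∧ ∀ g : G, IsOfFinOrder g → g ^ N = 1 := by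
  obtain ⟨N₀, hN₀⟩ := finite_bdd h
  refine ⟨N₀.factorial, Nat.factorial_pos N₀, fun g hg => ?_⟩
  have h1 : Finite (Subgroup.zpowers g) := by
    exact finite_zpowers.mpr hg
  have h2 := hN₀ (Subgroup.zpowers g) h1
  rw [Nat.card_zpowers] at h2
  exact orderOf_dvd_iff_pow_eq_one.mp (Nat.dvd_factorial (orderOf_pos_iff.mpr hg) h2)

end TitsLF
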