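import Pool.Agent.Helper35.TT.RQuot

/-!
TS-06 Descending. If long commutators of generators lie in a finite normal subgroup then the group is virtually solvable.

PROOF. May work in the group `K = closure F` (or in `G` with `closure F = ⊤`, as stated). `Fj 0 = F`, `Fj (j+1) = {⁅g, k⁆ | g ∈ Fj j, k ∈ F}` (`hF` says `Fj m ⊆ N`). `Γ j = closure (⋃ i ≥ j, Fj i)`, `Γ 0 = ⊤`, antitone.
1. `Γ j` is normal: for `g ∈ Fj i`, `i ≥ j`, `k ∈ F`: `k * g * k⁻¹ = ⁅g, k⁆⁻¹ ... ` precisely `⁅g, k⁆ = g * (k * g⁻¹ * k⁻¹)`, so `k * g⁻¹ * k⁻¹ = g⁻¹ * ⁅g, k⁆ ∈ Γ j` and so `k * g * k⁻¹ ∈ Γ j`. As `F = F⁻¹` generates `G`, the normalizer of `Γ j` is `⊤`.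
2. `⁅Γ j, ⊤⁆ ≤ Γ (j+1)`: modulo the normal subgroup `Γ (j+1)` the generators `g ∈ Fj i` (`i ≥ j`) of `Γ j` commute with the generators `k ∈ F` of `G`. (The set of the `k` with `⁅g, k⁆ ∈ Γ (j+1)` is a subgroup for fixed `g`, since `Γ (j+1)` is normal, etc.; or work in the quotient: the image of `g` lies in the
   centralizer of the image of `F`, which is the center.) So `derivedSeries G j ≤ Γ j` by induction (`⁅Γ j, Γ j⁆ ≤ ⁅Γ j, ⊤⁆ ≤ Γ (j+1)`).
3. `Fj m ⊆ N` for one `m` implies `Fj i ⊆ N` for all `i ≥ m` (`N` is normal), so `Γ m ≤ N`. So `derivedSeries G m ≤ N` is finite.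
4. Let `D = derivedSeries G m`, normal and finite. `C = centralizer D` has finite index (the conjugation action on the finite set `D`: kernel of `G →* MulAut D` or `Equiv.Perm D`; `Subgroup.finiteIndex_ker` for a finite target). `C` is solvable: `derivedSeries C m` maps into `D ⊓ C`, which is commutative, so
   `derivedSeries C (m+1) = ⊥` (compare the proof of `bieb_vsolv`, `TT/BFin.lean`). So `VSolv G`.
-/

set_option autoImplicit false

namespace TitsLF

universe u

/-- Iterated commutators of the elements of `F`. -/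
def Fj {G : Type u} [Group G] (F : Set G) : ℕ → Set G
  | 0 => F
  | j + 1 => {x | ∃ g ∈ Fj F j, ∃ k ∈ F, x = g * k * g⁻¹ * k⁻¹}

private def Ga {G : Type u} [Group G] (F : Set G) (j : ℕ) : Subgroup G :=
  Subgroup.closure {g | ∃ i, j ≤ i ∧ g ∈ Fj F i}

private theorem mem_Ga {G : Type u} [Group G] {F : Set G} {i j : ℕ} (hij : j ≤ i) {g : G}
    (hg : g ∈ Fj F i) : g ∈ Ga F j :=
  Subgroup.subset_closure ⟨i, hij, hg⟩

private theorem Ga_conj {G : Type u} [Group G] {F : Set G} {i j : ℕ} (hij : j ≤ i) {g : G}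
    (hg : g ∈ Fj F i) {k : G} (hk : k ∈ F) : k * g * k⁻¹ ∈ Ga F j := by
  have hc : g * k * g⁻¹ * k⁻¹ ∈ Ga F j :=
    mem_Ga (i := i + 1) (by omega) ⟨g, hg, k, hk, rfl⟩
  have h1 := (Ga F j).inv_mem ((Ga F j).mul_mem ((Ga F j).inv_mem (mem_Ga hij hg)) hc)
  have h2 : (g⁻¹ * (g * k * g⁻¹ * k⁻¹))⁻¹ = k * g * k⁻¹ := by group
  rwa [h2] at h1

private theorem Ga_conj' {G : Type u} [Group G] {F : Set G} (j : ℕ) {k : G} (hk : k ∈ F) {h : G}
    (hh : h ∈ Ga F j) : k * h * k⁻¹ ∈ Ga F j := by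
  have h1 : Ga F j ≤ (Ga F j).comap (MulAut.conj k).toMonoidHom := by
    refine (Subgroup.closure_le _).2 ?_
    rintro g ⟨i, hij, hg⟩
    exact Ga_conj hij hg hk
  exact h1 hh

private theorem Ga_normal {G : Type u} [Group G] {F : Set G} (hF : ∀ g ∈ F, g⁻¹ ∈ F)
    (hgen : Subgroup.closure F = ⊤) (j : ℕ) : (Ga F j).Normal := by
  rw [← Subgroup.normalizer_eq_top_iff, ← top_le_iff, ← hgen, Subgroup.closure_le]
  intro k hk h
  constructor
  · intro hh
    exact Ga_conj' j hk hh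
  · intro hh
    have h1 := Ga_conj' j (hF k hk) hh
    have h2 : k⁻¹ * (k * h * k⁻¹) * k⁻¹⁻¹ = h := by group
    rwa [h2] at h1

private theorem Ga_comm {G : Type u} [Group G] {F : Set G} (hF : ∀ g ∈ F, g⁻¹ ∈ F)
    (hgen : Subgroup.closure F = ⊤) (j : ℕ) : ⁅Ga F j, (⊤ : Subgroup G)⁆ ≤ Ga F (j + 1) := by
  have hn := Ga_normal hF hgen (j + 1)
  have h1 : ∀ i, j ≤ i → ∀ g ∈ Fj F i, ∀ k : G, QuotientGroup.mk' (Ga F (j + 1)) k *
      QuotientGroup.mk' (Ga F (j + 1)) g =
      QuotientGroup.mk' (Ga F (j + 1)) g * QuotientGroup.mk' (Ga F (j + 1)) k := by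
    intro i hij g hg k
    have h2 : (⊤ : Subgroup G) ≤ (Subgroup.centralizer
        {QuotientGroup.mk' (Ga F (j + 1)) g}).comap (QuotientGroup.mk' (Ga F (j + 1))) := by
      rw [← hgen, Subgroup.closure_le]
      intro k hk
      change QuotientGroup.mk' (Ga F (j + 1)) k ∈
        Subgroup.centralizer {QuotientGroup.mk' (Ga F (j + 1)) g}
      rw [Subgroup.mem_centralizer_singleton_iff]
      have h3 : QuotientGroup.mk' (Ga F (j + 1)) (g * k * g⁻¹ * k⁻¹) = 1 :=
        (QuotientGroup.eq_one_iff _).2 (mem_Ga (i := i + 1) (by omega) ⟨g, hg, k, hk, rfl⟩)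
      rw [map_mul, map_mul, map_mul, map_inv, map_inv, mul_inv_eq_one, mul_inv_eq_iff_eq_mul] at h3
      exact h3.symm
    have h4 := h2 (Subgroup.mem_top k)
    exact Subgroup.mem_centralizer_singleton_iff.1 h4
  rw [Subgroup.commutator_le]
  intro g hg k _
  have h5 : Ga F j ≤ (Subgroup.centralizer
      {QuotientGroup.mk' (Ga F (j + 1)) k}).comap (QuotientGroup.mk' (Ga F (j + 1))) := by
    refine (Subgroup.closure_le _).2 ?_
    rintro g ⟨i, hij, hg⟩
    change QuotientGroup.mk' (Ga F (j + 1)) g ∈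
      Subgroup.centralizer {QuotientGroup.mk' (Ga F (j + 1)) k}
    rw [Subgroup.mem_centralizer_singleton_iff]
    exact (h1 i hij g hg k).symm
  have h6 := Subgroup.mem_centralizer_singleton_iff.1 (h5 hg)
  rw [← QuotientGroup.eq_one_iff, commutatorElement_def]
  change QuotientGroup.mk' (Ga F (j + 1)) (g * k * g⁻¹ * k⁻¹) = 1
  rw [map_mul, map_mul, map_mul, map_inv, map_inv, mul_inv_eq_one, mul_inv_eq_iff_eq_mul]
  exact h6

private theorem derived_le {G : Type u} [Group G] {F : Set G} (hF : ∀ g ∈ F, g⁻¹ ∈ F)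
    (hgen : Subgroup.closure F = ⊤) (j : ℕ) : derivedSeries G j ≤ Ga F j := by
  induction j with
  | zero =>
    rw [derivedSeries_zero, ← hgen, Subgroup.closure_le]
    intro g hg
    exact mem_Ga le_rfl hg
  | succ j ih =>
    rw [derivedSeries_succ]
    exact (Subgroup.commutator_mono ih le_top).trans (Ga_comm hF hgen j)

private theorem Ga_le {G : Type u} [Group G] {F : Set G} (N : Subgroup G) [hNn : N.Normal] (m : ℕ)
    (hm : Fj F m ⊆ N) : Ga F m ≤ N := by
  have h1 : ∀ i, m ≤ i → Fj F i ⊆ N := by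
    intro i hi
    induction i, hi using Nat.le_induction with
    | base => exact hm
    | succ i hi ih =>
      rintro x ⟨g, hg, k, hk, rfl⟩
      have h2 : g * k * g⁻¹ * k⁻¹ = g * (k * g⁻¹ * k⁻¹) := by group
      rw [h2]
      exact N.mul_mem (ih hg) (hNn.conj_mem _ (N.inv_mem (ih hg)) k)
  refine (Subgroup.closure_le _).2 ?_
  rintro g ⟨i, hi, hg⟩
  exact h1 i hi hg

theorem vsolv_of_comm {G : Type u} [Group G] (F : Set G) (hF : ∀ g ∈ F, g⁻¹ ∈ F)
    (hgen : Subgroup.closure F = ⊤) (N : Subgroup G) [N.Normal] (hN : Finite N) (m : ℕ)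
    (hm : Fj F m ⊆ N) : VSolv G := by
  have hle : derivedSeries G m ≤ N := (derived_le hF hgen m).trans (Ga_le N m hm)
  have hDn : (derivedSeries G m).Normal := derivedSeries_normal G m
  have hDf : Finite (derivedSeries G m) :=
    Finite.of_injective (Subgroup.inclusion hle) (Subgroup.inclusion_injective hle)
  have hAut : Finite (MulAut (derivedSeries G m)) :=
    Finite.of_injective (fun e : MulAut (derivedSeries G m) =>
      (e : derivedSeries G m → derivedSeries G m)) DFunLike.coe_injective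
  obtain ⟨C, hC⟩ : ∃ C : Subgroup G,
      C = (MulAut.conjNormal : G →* MulAut (derivedSeries G m)).ker := ⟨_, rfl⟩
  have hCfin : C.FiniteIndex := by
    rw [hC]
    infer_instance
  refine ⟨C, hCfin, ?_⟩
  have hcomm : ∀ x ∈ C, ∀ y : derivedSeries G m, x * (y : G) = y * x := by
    intro x hx y
    rw [hC, MonoidHom.mem_ker] at hx
    have h1 := DFunLike.congr_fun hx y
    have h2 := congrArg (Subtype.val : derivedSeries G m → G) h1
    rw [MulAut.conjNormal_apply] at h2
    have h3 : x * (y : G) * x⁻¹ = y := h2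
    exact mul_inv_eq_iff_eq_mul.mp h3
  have hs : Group.IsSolvable ((QuotientGroup.mk' (derivedSeries G m)).comp C.subtype).ker := by
    refine Group.isSolvable_of_comm fun x y => ?_
    apply Subtype.ext
    apply Subtype.ext
    have hy : ((y : C) : G) ∈ derivedSeries G m := by
      have h1 := y.2
      rw [MonoidHom.mem_ker] at h1
      exact (QuotientGroup.eq_one_iff _).1 h1
    exact hcomm _ x.1.2 ⟨_, hy⟩
  have hs2 : Group.IsSolvable (G ⧸ derivedSeries G m) := by
    refine ⟨⟨m, ?_⟩⟩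
    rw [← map_derivedSeries_eq (QuotientGroup.mk'_surjective (derivedSeries G m)),
      Subgroup.map_eq_bot_iff, QuotientGroup.ker_mk']
  refine Group.isSolvable_of_ker_le_range
    ((QuotientGroup.mk' (derivedSeries G m)).comp C.subtype).ker.subtype
    ((QuotientGroup.mk' (derivedSeries G m)).comp C.subtype) ?_
  rw [Subgroup.range_subtype]

end TitsLF
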