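import Pool.Agent.Helper35.TT.BLin

/-!
TS-05 GenFin. The subgroup generated by the elements with small rotation part has finite index and is generated by finitely many such elements.

PROOF. `R = {g | rot (A g) ≤ 1/6}` is closed under inverses (`rot (A g)⁻¹ = rot (A g)`: `rot_inv_mul_le`/`rot_le_of`: `‖A⁻¹ x - x‖ = ‖x - A x‖`), `K = closure R`. `exists_classes` with `ε = 1/6`: if `c (A g) = c (A k)` then `rot (A (g⁻¹ * k)) ≤ 1/6` (`rot_inv_mul_le`), so `g⁻¹ * k ∈ K`:
at most `N` left cosets, `K.FiniteIndex` (`Subgroup.finiteIndex_of_finite_quotient`, an injection of `G ⧸ K` into `Fin N`: choose representatives). `K` is finitely generated (Schreier: `Subgroup.fg_of_index_ne_zero` or `Subgroup.fg_iff`), `K = closure T`, `T` finite.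
Every element of `closure R` lies in the closure of a finite subset of `R` (`Subgroup.closure_induction`, or `Subgroup.mem_closure_finset`-like; directed union), so there is a finite `F₀ ⊆ R` with `T ⊆ closure F₀`; take `F = F₀ ∪ F₀⁻¹`. `closure F = K`.
-/

set_option autoImplicit false

namespace TitsLF

universe u v

private theorem mem_closure_finite {G : Type u} [Group G] [DecidableEq G] (R : Set G) {x : G}
    (hx : x ∈ Subgroup.closure R) :
    ∃ F : Finset G, (∀ g ∈ F, g ∈ R) ∧ x ∈ Subgroup.closure (F : Set G) := by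
  induction hx using Subgroup.closure_induction with
  | mem y hy =>
    refine ⟨{y}, fun g hg => ?_, Subgroup.subset_closure ?_⟩
    · rw [Finset.mem_singleton] at hg
      rw [hg]
      exact hy
    · simp
  | one => exact ⟨∅, fun g hg => absurd hg (Finset.notMem_empty g), Subgroup.one_mem _⟩
  | mul a b _ _ iha ihb =>
    obtain ⟨F, hF, ha⟩ := iha
    obtain ⟨F', hF', hb⟩ := ihb
    refine ⟨F ∪ F', fun g hg => ?_, Subgroup.mul_mem _ ?_ ?_⟩
    · rcases Finset.mem_union.1 hg with h | h
      · exact hF g h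
      · exact hF' g h
    · exact Subgroup.closure_mono (by intro z hz; exact Finset.mem_union_left _ hz) ha
    · exact Subgroup.closure_mono (by intro z hz; exact Finset.mem_union_right _ hz) hb
  | inv a _ iha =>
    obtain ⟨F, hF, ha⟩ := iha
    exact ⟨F, hF, Subgroup.inv_mem _ ha⟩

theorem exists_fin_gen {G : Type u} [Group G] [Group.FG G] {E : Type v} [NormedAddCommGroup E]
    [InnerProductSpace ℝ E] [FiniteDimensional ℝ E] (A : G →* (E ≃ₗᵢ[ℝ] E)) :
    ∃ F : Finset G, (∀ g ∈ F, rot (A g) ≤ 1 / 6) ∧ (∀ g ∈ F, g⁻¹ ∈ F) ∧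
      (Subgroup.closure (F : Set G)).FiniteIndex := by
  classical
  obtain ⟨R, hR⟩ : ∃ R : Set G, R = {g | rot (A g) ≤ 1 / 6} := ⟨_, rfl⟩
  have hmemR : ∀ g, g ∈ R ↔ rot (A g) ≤ 1 / 6 := fun g => by rw [hR]; rfl
  have hinv : ∀ g ∈ R, g⁻¹ ∈ R := by
    intro g hg
    rw [hmemR] at hg ⊢
    have h1 := rot_inv_mul_le (A := A g) (B := 1) (c := 1 / 6) (by norm_num) (fun x => by
      refine (rot_le (A g) x).trans ?_
      exact mul_le_mul_of_nonneg_right hg (norm_nonneg _))
    rw [mul_one, ← map_inv] at h1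
    exact h1
  obtain ⟨N, c, hc⟩ := exists_classes (E := E) (ε := 1 / 6) (by norm_num)
  have hcl : ∀ g k : G, c (A g) = c (A k) → g⁻¹ * k ∈ Subgroup.closure R := by
    intro g k h
    refine Subgroup.subset_closure ?_
    rw [hmemR, map_mul, map_inv]
    exact rot_inv_mul_le (by norm_num) (hc _ _ h)
  have hfin : Finite (G ⧸ Subgroup.closure R) := by
    refine Finite.of_injective (fun q : G ⧸ Subgroup.closure R => c (A q.out)) fun p q h => ?_
    have h1 := hcl _ _ h
    have h2 : ((p.out : G) : G ⧸ Subgroup.closure R) = (q.out : G) := QuotientGroup.eq.2 h1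
    rw [QuotientGroup.out_eq', QuotientGroup.out_eq'] at h2
    exact h2
  have hfi : (Subgroup.closure R).FiniteIndex := Subgroup.finiteIndex_of_finite_quotient
  have hfg : (Subgroup.closure R).FG :=
    (Group.fg_iff_subgroup_fg _).1 (Subgroup.fg_of_index_ne_zero (Subgroup.closure R))
  obtain ⟨T, hT⟩ := hfg
  have hTmem : ∀ x : G, ∃ F : Finset G, (∀ g ∈ F, g ∈ R) ∧ (x ∈ T → x ∈ Subgroup.closure (F : Set G)) := by
    intro x
    by_cases hx : x ∈ T
    · have h1 : x ∈ Subgroup.closure R := by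
        rw [← hT]
        exact Subgroup.subset_closure hx
      obtain ⟨F, hF, hxF⟩ := mem_closure_finite R h1
      exact ⟨F, hF, fun _ => hxF⟩
    · exact ⟨∅, fun g hg => absurd hg (Finset.notMem_empty g), fun h => absurd h hx⟩
  choose Fx hFx hxF using hTmem
  obtain ⟨F0, hF0⟩ : ∃ F0 : Finset G, F0 = T.biUnion Fx := ⟨_, rfl⟩
  have hF0R : ∀ g ∈ F0, g ∈ R := by
    intro g hg
    rw [hF0, Finset.mem_biUnion] at hg
    obtain ⟨x, _, hx⟩ := hg
    exact hFx x g hx
  have hmem : ∀ g, g ∈ F0 ∪ F0.image (fun g => g⁻¹) ↔ g ∈ F0 ∨ g⁻¹ ∈ F0 := by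
    intro g
    rw [Finset.mem_union, Finset.mem_image]
    refine or_congr_right ⟨?_, fun h => ⟨g⁻¹, h, inv_inv g⟩⟩
    rintro ⟨a, ha, rfl⟩
    rwa [inv_inv]
  refine ⟨F0 ∪ F0.image (fun g => g⁻¹), fun g hg => ?_, fun g hg => ?_, ?_⟩
  · rw [← hmemR]
    rcases (hmem g).1 hg with h | h
    · exact hF0R g h
    · have := hinv _ (hF0R _ h)
      rwa [inv_inv] at this
  · rw [hmem] at hg ⊢
    rw [inv_inv]
    exact hg.symm
  · have hle : Subgroup.closure R ≤ Subgroup.closure ((F0 ∪ F0.image (fun g => g⁻¹) : Finset G) : Set G) := by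
      rw [← hT, Subgroup.closure_le]
      intro x hx
      refine Subgroup.closure_mono ?_ (hxF x hx)
      intro z hz
      refine (hmem z).2 (Or.inl ?_)
      rw [hF0, Finset.mem_biUnion]
      exact ⟨x, hx, hz⟩
    exact Subgroup.finiteIndex_of_le hle

end TitsLF
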