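import Pool.Agent.Helper35.TF.CommEst
import Pool.Agent.Helper35.TF.GenFin
import Pool.Agent.Helper35.TF.Descending

/-!
TS-07 BiebD. Discrete finitely generated groups of affine isometries are virtually solvable (weak form of the theorem of Bieberbach).

PROOF. `exists_fin_gen` gives `F`. Choose `lam > 0` with `‖a g‖ ≤ lam/6` for `g ∈ F`. By `comm_est` and induction on `j` all `x ∈ Fj F j` satisfy `rot (A x) ≤ (1/6) (1/2)^j` and `‖a x‖ ≤ (1/6) (1/2)^j lam`. Let `N₀ = {g | A g = 1 ∧ a g = 0}`: a normal subgroup of `G`, finite by `hfin 0`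
(subgroup: `a 1 = 0`, `a (g k) = a g + a k` if `A g = 1`, `a g⁻¹ = - A g⁻¹ (a g)`; it is the kernel of the action `v ↦ A g v + a g`, or direct: `a (x g x⁻¹) = a x + A x (a g) + A x A g (a x⁻¹)`, with `A g = 1`, `a g = 0` this is `a (x x⁻¹) = 0`).
The set `T = {g | ‖a g‖ ≤ lam}` is finite, so there is `δ > 0` such that `g ∈ T`, `rot (A g) < δ`, `‖a g‖ < δ` imply `rot (A g) = 0`, `‖a g‖ = 0` (minimum of the finitely many positive values), i.e. `g ∈ N₀` (`rot_eq_zero`). For large `m`: `Fj F m ⊆ N₀`.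
Apply `vsolv_of_comm` to the group `K = closure F` (`F` and `N₀` restricted to `K`: `Fj` of the preimage; the preimage of `F` in `K` generates `K`: `Subgroup.closure_closure_coe_preimage`; `N₀.subgroupOf K` normal and finite): `VSolv K`. `vsolv_of_finiteIndex` (`TT/RQuot.lean`).
(Proved by helper54.)
-/

set_option autoImplicit false

namespace TitsLF

universe u v

open Filter in
private theorem h54_core {G : Type u} [Group G] {E : Type v}
    [NormedAddCommGroup E] [InnerProductSpace ℝ E]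
    (A : G →* (E ≃ₗᵢ[ℝ] E)) (a : G → E) (ha : ∀ g k, a (g * k) = a g + A g (a k))
    (hfin : ∀ R : ℝ, {g | ‖a g‖ ≤ R}.Finite) (F : Set G) (hF : F.Finite)
    (hinv : ∀ g ∈ F, g⁻¹ ∈ F) (hgen : Subgroup.closure F = ⊤)
    (hrot : ∀ g ∈ F, rot (A g) ≤ 1 / 6) : VSolv G := by
  have ha1 : a 1 = 0 := by
    have h := ha 1 1
    rw [mul_one, map_one] at h
    have h2 : a 1 = a 1 + a 1 := h
    simpa using h2
  have hainv : ∀ g, a g + A g (a g⁻¹) = 0 := by
    intro g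
    rw [← ha, mul_inv_cancel, ha1]
  obtain ⟨N, hN⟩ : ∃ N : Subgroup G, ∀ g, g ∈ N ↔ A g = 1 ∧ a g = 0 := by
    refine ⟨{ carrier := {g | A g = 1 ∧ a g = 0}, mul_mem' := ?_, one_mem' := ?_, inv_mem' := ?_ },
      fun g => Iff.rfl⟩
    · rintro g k ⟨h1, h2⟩ ⟨h3, h4⟩
      refine ⟨by rw [map_mul, h1, h3, one_mul], ?_⟩
      rw [ha, h2, h4, map_zero, add_zero]
    · exact ⟨map_one A, ha1⟩
    · rintro g ⟨h1, h2⟩
      refine ⟨by rw [map_inv, h1, inv_one], ?_⟩
      have h3 := hainv g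
      rw [h1, h2, zero_add] at h3
      exact h3
  have hNn : N.Normal := by
    refine ⟨fun n hn g => ?_⟩
    rw [hN] at hn ⊢
    obtain ⟨h1, h2⟩ := hn
    refine ⟨by rw [map_mul, map_mul, h1, mul_one, map_inv, mul_inv_cancel], ?_⟩
    rw [ha, ha, h2, map_zero, add_zero, map_mul, h1, mul_one]
    exact hainv g
  have hNf : Finite N := by
    refine Set.Finite.subset (hfin 0) ?_
    intro g hg
    have h1 := (hN g).1 hg
    show ‖a g‖ ≤ 0
    rw [h1.2, norm_zero]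
  obtain ⟨lam, hlam0, hlam⟩ : ∃ lam : ℝ, 0 < lam ∧ ∀ g ∈ F, ‖a g‖ ≤ 1 / 6 * lam := by
    obtain ⟨M, hM⟩ := (hF.image (fun g => ‖a g‖)).bddAbove
    refine ⟨max 1 (6 * M), lt_of_lt_of_le one_pos (le_max_left _ _), fun g hg => ?_⟩
    have h1 : ‖a g‖ ≤ M := hM ⟨g, hg, rfl⟩
    have h2 : 6 * M ≤ max 1 (6 * M) := le_max_right _ _
    linarith
  have hest : ∀ j : ℕ, ∀ x ∈ Fj F j, rot (A x) ≤ 1 / 6 * (1 / 2) ^ j ∧
      ‖a x‖ ≤ 1 / 6 * (1 / 2) ^ j * lam := by
    intro j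
    induction j with
    | zero =>
      intro x hx
      have hx' : x ∈ F := hx
      rw [pow_zero, mul_one]
      exact ⟨hrot x hx', hlam x hx'⟩
    | succ j ih =>
      rintro x ⟨g, hg, k, hk, rfl⟩
      obtain ⟨h1, h2⟩ := ih g hg
      obtain ⟨h3, h4⟩ := comm_est A a ha hlam0.le (δ := 1 / 6 * (1 / 2) ^ j) (by positivity)
        h1 h2 (hrot k hk) (hlam k hk)
      have h5 : (1 / 6 * (1 / 2) ^ j : ℝ) / 2 = 1 / 6 * (1 / 2) ^ (j + 1) := by
        rw [pow_succ]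
        ring
      rw [h5] at h3 h4
      exact ⟨h3, h4⟩
  have hlim : Tendsto (fun m : ℕ => 1 / 6 * (1 / 2 : ℝ) ^ m * (1 + lam)) atTop (nhds 0) := by
    have h1 : Tendsto (fun m : ℕ => (1 / 2 : ℝ) ^ m) atTop (nhds 0) :=
      tendsto_pow_atTop_nhds_zero_of_lt_one (by norm_num) (by norm_num)
    have h2 := (h1.const_mul (1 / 6)).mul_const (1 + lam)
    simpa using h2
  have hev : ∀ᶠ m : ℕ in atTop, ∀ g ∈ {g | ‖a g‖ ≤ lam},
      rot (A g) + ‖a g‖ ≤ 1 / 6 * (1 / 2 : ℝ) ^ m * (1 + lam) → rot (A g) + ‖a g‖ = 0 := by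
    rw [Filter.eventually_all_finite (hfin lam)]
    intro g _
    have h0 : 0 ≤ rot (A g) + ‖a g‖ := add_nonneg (rot_nonneg _) (norm_nonneg _)
    rcases h0.eq_or_lt with h | h
    · exact Filter.Eventually.of_forall (fun _ _ => h.symm)
    · filter_upwards [hlim.eventually (gt_mem_nhds h)] with m hm hm2
      exact absurd hm2 (not_le.2 hm)
  obtain ⟨m, hm⟩ := hev.exists
  refine vsolv_of_comm F hinv hgen N hNf m ?_
  intro x hx
  obtain ⟨h1, h2⟩ := hest m x hx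
  have h3 : (1 / 2 : ℝ) ^ m ≤ 1 := pow_le_one₀ (by norm_num) (by norm_num)
  have h4 : ‖a x‖ ≤ lam := by
    refine h2.trans ?_
    have h5 : 1 / 6 * (1 / 2 : ℝ) ^ m ≤ 1 := by linarith
    calc 1 / 6 * (1 / 2 : ℝ) ^ m * lam ≤ 1 * lam := mul_le_mul_of_nonneg_right h5 hlam0.le
      _ = lam := one_mul _
  have h5 := hm x h4 (by
    have : 1 / 6 * (1 / 2 : ℝ) ^ m * (1 + lam) =
      1 / 6 * (1 / 2) ^ m + 1 / 6 * (1 / 2) ^ m * lam := by ring
    rw [this]
    exact add_le_add h1 h2)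
  have h6 := rot_nonneg (A x)
  have h7 := norm_nonneg (a x)
  have h8 : rot (A x) = 0 := by linarith
  have h9 : ‖a x‖ = 0 := by linarith
  exact (hN x).2 ⟨rot_eq_zero h8, norm_eq_zero.1 h9⟩

theorem vsolv_of_discrete {G : Type u} [Group G] [Group.FG G] {E : Type v}
    [NormedAddCommGroup E] [InnerProductSpace ℝ E] [FiniteDimensional ℝ E]
    (A : G →* (E ≃ₗᵢ[ℝ] E)) (a : G → E) (ha : ∀ g k, a (g * k) = a g + A g (a k))
    (hfin : ∀ R : ℝ, {g | ‖a g‖ ≤ R}.Finite) : VSolv G := by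
  obtain ⟨F, hF1, hF2, hF3⟩ := exists_fin_gen A
  refine vsolv_of_finiteIndex (Subgroup.closure (F : Set G)) hF3 ?_
  refine h54_core (A.comp (Subgroup.closure (F : Set G)).subtype)
    (fun g => a (g : G)) ?_ ?_ ((↑) ⁻¹' (F : Set G)) ?_ ?_ ?_ ?_
  · intro g k
    exact ha (g : G) (k : G)
  · intro R
    exact (hfin R).preimage Subtype.val_injective.injOn
  · exact F.finite_toSet.preimage Subtype.val_injective.injOn
  · intro g hg
    exact hF2 (g : G) hg
  · exact Subgroup.closure_closure_coe_preimage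
  · intro g hg
    exact hF1 (g : G) hg

end TitsLF
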