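import Pool.Agent.Helper35.TF.SlowBus
import Pool.Agent.Helper35.TF.Basic

/-!
TS-02 BusExt. A fixed Busemann type function of an invariant closed convex subset gives one of the whole space.

PROOF. Let `b` be the function on `C`, `o : C`, `p n = ((fl b n o : C) : X)`. `dist o (p n) = n` (`fl_dist`). For `g : G`: `g • fl b n o = fl b n (g • o)` (`fl_qinv`, for the action on `C`), so `dist (p n) (g • p n) ≤ dist o (g • o)` (`fl_nonexp`), and
`dist (p n) (g • p n) / dist o (p n) → 0`. `bus_of_slow h`.
-/

set_option autoImplicit false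

namespace TitsLF

universe u v

theorem bus_extend {G : Type u} {X : Type v} [Group G] [MetricSpace X] [MulAction G X]
    (h : WAct G X) (C : SubMulAction G X) (hC : WAct G C) {b : C → ℝ} (hb : IsBus b)
    (hq : QInv G b) : ∃ b' : X → ℝ, IsBus b' ∧ QInv G b' := by
  have hcat := hC.cat
  obtain ⟨o⟩ := hC.ne
  have hd : ∀ n : ℕ, dist (o : X) ((fl b n o : C) : X) = n := fun n =>
    fl_dist hb n.cast_nonneg o
  refine bus_of_slow h (o : X) (fun n => ((fl b n o : C) : X)) ?_ fun g => ?_
  · simp only [hd]
    exact tendsto_natCast_atTop_atTop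
  · simp only [hd]
    have h1 : ∀ n : ℕ, dist ((fl b n o : C) : X) (g • ((fl b n o : C) : X)) ≤
        dist o (g • o) := by
      intro n
      have h2 : g • ((fl b n o : C) : X) = ((fl b n (g • o) : C) : X) := by
        rw [fl_qinv hC.iso hb hq g n.cast_nonneg o]
        rfl
      rw [h2]
      exact fl_nonexp hb n.cast_nonneg o (g • o)
    refine squeeze_zero (fun n => div_nonneg dist_nonneg n.cast_nonneg)
      (fun n => div_le_div_of_nonneg_right (h1 n) n.cast_nonneg)
      (tendsto_const_div_atTop_nhds_zero_nat (dist o (g • o)))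

end TitsLF
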