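import Pool.Agent.Helper35.TF.Defs
import Pool.Agent.Helper35.TT.Bus

/-!
TF-07 CenInf. If `closure S` has a fixed Busemann type function then the centralizer of the finite set `S` is infinite.

PROOF. This is the proof of `center_infinite` (`TT/Center.lean`) with the generating set replaced by `S`: `x n = fl b n o`, `a n` with `dist (a n • x n) o ≤ D`; `s • x n = fl b n (s • o)` for `s ∈ S` (`fl_qinv` for the group `closure S`),
so the conjugates `a n * s * (a n)⁻¹` lie in the finite set `{g | dist (g • o) o ≤ 2 D + r}`; on an infinite fibre the elements `(a m)⁻¹ * a m₀` lie in the centralizer of `S` and are infinitely many. (Copy the proof; `hF` gives that `(a m)⁻¹ * a m₀` commutes with the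
`s ∈ S`: `Subgroup.mem_centralizer_iff`.)
-/

set_option autoImplicit false

namespace TitsLF

universe u v

theorem centralizer_infinite {G : Type u} {X : Type v} [Group G] [MetricSpace X] [MulAction G X]
    (h : Act G X) (S : Finset G) {b : X → ℝ} (hb : IsBus b)
    (hq : QInv (Subgroup.closure (S : Set G)) b) :
    Infinite (Subgroup.centralizer (S : Set G)) := by
  classical
  haveI := h.cat
  obtain ⟨o⟩ := h.ne
  obtain ⟨D, hD, hcoc⟩ := h.coc o
  set r : ℝ := ∑ s ∈ S, dist (s • o) o with hrdef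
  have hr : ∀ s ∈ S, dist (s • o) o ≤ r := fun s hs =>
    Finset.single_le_sum (f := fun s : G => dist (s • o) o) (fun _ _ => dist_nonneg) hs
  choose a ha using fun n : ℕ => hcoc (fl b n o)
  set x : ℕ → X := fun n => fl b n o with hx
  have ha' : ∀ n, dist (a n • x n) o ≤ D := ha
  have hxx : ∀ m n : ℕ, dist (x m) (x n) = |(m : ℝ) - n| := fun m n =>
    dist_fl_fl hb (Nat.cast_nonneg m) (Nat.cast_nonneg n) o
  have hsx : ∀ (n : ℕ), ∀ s ∈ S, dist (s • x n) (x n) ≤ r := by
    intro n s hs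
    have hsc : s ∈ Subgroup.closure (S : Set G) := Subgroup.subset_closure hs
    have h1 : s • x n = fl b n (s • o) :=
      (fl_qinv (G := Subgroup.closure (S : Set G)) (fun g y z => h.iso (g : G) y z) hb hq
        ⟨s, hsc⟩ (Nat.cast_nonneg n) o).symm
    rw [h1]
    exact (fl_nonexp hb (Nat.cast_nonneg n) _ _).trans (hr s hs)
  set T : Set G := {g : G | dist (g • o) o ≤ 2 * D + r} with hT
  haveI : Finite T := h.fin o (2 * D + r)
  have hmem : ∀ (n : ℕ), ∀ s ∈ S, a n * s * (a n)⁻¹ ∈ T := by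
    intro n s hs
    change dist ((a n * s * (a n)⁻¹) • o) o ≤ 2 * D + r
    have h1 := dist_triangle4 ((a n * s * (a n)⁻¹) • o) ((a n * s * (a n)⁻¹) • (a n • x n))
      (a n • x n) o
    have h2 : dist ((a n * s * (a n)⁻¹) • o) ((a n * s * (a n)⁻¹) • (a n • x n)) ≤ D := by
      rw [h.iso, dist_comm]
      exact ha' n
    have h3 : dist ((a n * s * (a n)⁻¹) • (a n • x n)) (a n • x n) ≤ r := by
      have h4 : (a n * s * (a n)⁻¹) • (a n • x n) = a n • (s • x n) := by
        rw [mul_smul, mul_smul, inv_smul_smul]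
      rw [h4, h.iso]
      exact hsx n s hs
    have h5 := ha' n
    linarith
  let F : ℕ → ({s // s ∈ S} → T) := fun n s => ⟨a n * s.1 * (a n)⁻¹, hmem n s.1 s.2⟩
  obtain ⟨y, hy⟩ := Finite.exists_infinite_fiber F
  obtain ⟨m₀⟩ : Nonempty (F ⁻¹' {y}) := inferInstance
  have hF : ∀ m : F ⁻¹' {y}, ∀ s ∈ S, a m * s * (a m)⁻¹ = a m₀ * s * (a m₀)⁻¹ := by
    intro m s hs
    have h1 : F m = F m₀ := by
      have e1 : F m = y := m.2
      have e2 : F m₀ = y := m₀.2
      rw [e1, e2]
    exact congrArg (fun t : T => t.1) (congrFun h1 ⟨s, hs⟩)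
  have hcen : ∀ m : F ⁻¹' {y}, (a m)⁻¹ * a m₀ ∈ Subgroup.centralizer (S : Set G) := by
    intro m
    rw [Subgroup.mem_centralizer_iff]
    intro s hs
    have h1 := hF m s hs
    calc s * ((a m)⁻¹ * a m₀) = (a m)⁻¹ * (a m * s * (a m)⁻¹) * a m₀ := by group
      _ = (a m)⁻¹ * (a m₀ * s * (a m₀)⁻¹) * a m₀ := by rw [h1]
      _ = (a m)⁻¹ * a m₀ * s := by group
  by_contra hcon
  rw [not_infinite_iff_finite] at hcon
  let Z : F ⁻¹' {y} → Subgroup.centralizer (S : Set G) := fun m => ⟨(a m)⁻¹ * a m₀, hcen m⟩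
  obtain ⟨z, hz⟩ := Finite.exists_infinite_fiber Z
  have hnear : ∀ m : Z ⁻¹' {z}, dist ((z : G) • x m₀) (x m.1) ≤ 2 * D := by
    intro m
    have e1 : (z : G) = (a m.1)⁻¹ * a m₀ := by
      have e2 : Z m.1 = z := m.2
      exact (congrArg (fun t : Subgroup.centralizer (S : Set G) => (t : G)) e2).symm
    rw [e1, mul_smul, ← h.iso (a m.1), smul_inv_smul]
    have e3 := dist_triangle (a m₀ • x m₀) o (a m.1 • x m.1)
    have e4 := ha' m₀
    have e5 := ha' m.1
    rw [dist_comm] at e5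
    linarith
  -- the fibre is bounded
  obtain ⟨m₁⟩ : Nonempty (Z ⁻¹' {z}) := inferInstance
  obtain ⟨N, hN⟩ := exists_nat_gt (4 * D + (m₁.1 : ℕ))
  have hbd : ∀ m : Z ⁻¹' {z}, ((m.1 : ℕ)) < N := by
    intro m
    have e1 := hnear m
    have e2 := hnear m₁
    have e3 := dist_triangle_left (x m.1) (x m₁.1) ((z : G) • x m₀)
    rw [hxx] at e3
    have e4 := le_abs_self (((m.1 : ℕ) : ℝ) - (m₁.1 : ℕ))
    have e5 : (((m.1 : ℕ)) : ℝ) < N := by linarith
    exact_mod_cast e5
  have hfin : Finite (Z ⁻¹' {z}) :=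
    Finite.of_injective (fun m : Z ⁻¹' {z} => (⟨(m.1 : ℕ), hbd m⟩ : Fin N)) fun m m' hmm =>
      Subtype.ext (Subtype.ext (congrArg (fun t : Fin N => t.1) hmm))
  exact not_finite (Z ⁻¹' {z})

end TitsLF
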