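import Pool.Agent.Helper35.TT.Defs

/-!
TF-04 FgSolv. Finitely generated torsion groups which are virtually solvable are finite.

PROOF.
* `finite_of_solvable`: by induction on `n`: a finitely generated group `G` all of whose elements have finite order, with `derivedSeries G n = ⊥`, is finite. `n = 0`: `⊤ = ⊥`. Step: `Abelianization G` (or `G ⧸ commutator G`) is a finitely
  generated commutative torsion group, hence finite (`CommGroup.finite_of_fg_torsion`; `Monoid.IsTorsion`). So `commutator G` has finite index, is finitely generated (Schreier: `Subgroup.fg_of_index_ne_zero`), torsion, and its derived series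
  is shorter (`derivedSeries (commutator G) n` maps to `derivedSeries G (n + 1)`; `Group.IsSolvable` of subgroups and a generalisation over the derived length; or use an induction principle for solvable groups if Mathlib has one). So `commutator G` is finite and `G` is finite.
* `finite_of_vsolv`: `H` of finite index and solvable; `H` is finitely generated, torsion, so finite; `G` is finite (`Subgroup.finite_of_finiteIndex`-like: finite subgroup of finite index).
-/

set_option autoImplicit false

namespace TitsLF

universe u

private theorem finite_aux (n : ℕ) : ∀ (G : Type u) [Group G] [Group.FG G]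
    (_ : ∀ g : G, IsOfFinOrder g), derivedSeries G n = ⊥ → Finite G := by
  induction n with
  | zero =>
    intro G _ _ _ h
    rw [derivedSeries_zero] at h
    have : Subsingleton G := (Subgroup.subsingleton_iff).1 (subsingleton_of_bot_eq_top h.symm)
    infer_instance
  | succ n ih =>
    intro G _ _ ht h
    have h1 : Finite (Abelianization G) := by
      have hfg : Group.FG (Abelianization G) :=
        inferInstanceAs (Group.FG (G ⧸ commutator G))
      apply CommGroup.finite_of_fg_isMulTorsion
      intro x
      obtain ⟨g, rfl⟩ := QuotientGroup.mk_surjective x
      exact (QuotientGroup.mk' (commutator G)).isOfFinOrder (ht g)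
    have h1' : Finite (G ⧸ commutator G) := h1
    have h2 : (commutator G).FiniteIndex := Subgroup.finiteIndex_of_finite_quotient
    have h3 : Group.FG (commutator G) := inferInstance
    have h4 : ∀ g : commutator G, IsOfFinOrder g := by
      intro g
      exact Submonoid.isOfFinOrder_coe.1 (ht g)
    have h5 : ∀ k, (derivedSeries (commutator G) k).map (commutator G).subtype ≤
        derivedSeries G (k + 1) := by
      intro k
      induction k with
      | zero =>
        rw [derivedSeries_zero, ← MonoidHom.range_eq_map, Subgroup.range_subtype]
        rfl
      | succ k ihk =>
        rw [derivedSeries_succ, Subgroup.map_commutator, derivedSeries_succ]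
        exact Subgroup.commutator_mono ihk ihk
    have h6 : derivedSeries (commutator G) n = ⊥ := by
      have h7 := h5 n
      rw [h, le_bot_iff, Subgroup.map_eq_bot_iff_of_injective _ (Subgroup.subtype_injective _)] at h7
      exact h7
    have h8 : Finite (commutator G) := ih (commutator G) h4 h6
    exact Finite.of_equiv _ (Subgroup.groupEquivQuotientProdSubgroup (s := commutator G)).symm

theorem finite_of_solvable {G : Type u} [Group G] [Group.FG G] (ht : ∀ g : G, IsOfFinOrder g)
    (hs : Group.IsSolvable G) : Finite G := by
  obtain ⟨n, hn⟩ := hs
  exact finite_aux n G ht hn

theorem finite_of_vsolv {G : Type u} [Group G] [Group.FG G] (ht : ∀ g : G, IsOfFinOrder g)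
    (hv : VSolv G) : Finite G := by
  obtain ⟨H, hH, hs⟩ := hv
  have h1 : Group.FG H := inferInstance
  have h2 : Finite H := finite_of_solvable
    (fun g => Submonoid.isOfFinOrder_coe.1 (ht g)) hs
  have h3 : Finite (G ⧸ H) := inferInstance
  exact Finite.of_equiv _ (Subgroup.groupEquivQuotientProdSubgroup (s := H)).symm

end TitsLF
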