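import Pool.Agent.Helper35.TF.Defs
import Pool.Agent.Helper35.TT.PartOne

/-!
TF-02 SubPart. The first part of project TT for subgroups: subgroups which are not amenable are locally free; subgroups of bounded exponent are amenable.

PROOFS.
* `locFree_sub`: copy of `locFree_of_not_reiter` (`TT/PartOne.lean`) for the group `H` acting on `X`: `gap hR` (for `H`), `small_dist o` (for `H`; the finiteness hypothesis from `h.fin o` by injectivity of `H → G`; the growth hypothesis
  from `orbit_growth h o` applied to the image of `T : Finset H` in `G`, `Finset.map` with `Subgroup.subtype` as an embedding, same cardinality), `select`, `words_ne` (for `H`, `fun g x y => h.iso g x y`).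
* `not_locFree`: if `g ^ N = 1` for all `g` and `0 < N`: apply `LocFree` to `W = {(FreeGroup.of 0) ^ N}`. `FreeGroup.of 0 ^ N ≠ 1` (`FreeGroup` is torsion free: `FreeGroup.isMulTorsionFree`, or map to
  `Multiplicative ℤ`, or `FreeGroup.lift` to `Multiplicative ℤ` with `of i ↦ ofAdd 1`, the image is `ofAdd N`). `f (of 0 ^ N) = (f (of 0)) ^ N = 1`.
* `reiter_of_exponent`: combine.
-/

set_option autoImplicit false

namespace TitsLF

universe u v

theorem locFree_sub {G : Type u} {X : Type v} [Group G] [MetricSpace X] [MulAction G X]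
    (h : Act G X) (H : Subgroup G) (hR : ¬ Reiter H) : LocFree H := by
  haveI := h.cat
  obtain ⟨o⟩ := h.ne
  have hiso : ∀ (g : H) (x y : X), dist (g • x) (g • y) = dist x y := fun g x y =>
    h.iso (g : G) x y
  have hfin : ∀ R : ℝ, {g : H | dist (g • o) o ≤ R}.Finite := by
    intro R
    have h1 : {g : H | dist (g • o) o ≤ R} = (fun g : H => (g : G)) ⁻¹' {g : G | dist (g • o) o ≤ R} :=
      rfl
    rw [h1]
    exact (h.fin o R).preimage (Subtype.coe_injective.injOn)
  have hgrow : ∃ C V : ℝ, 0 < C ∧ 0 < V ∧ ∀ R : ℝ, 0 ≤ R → ∀ T : Finset H,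
      (∀ g ∈ T, dist (g • o) o ≤ R) → (T.card : ℝ) ≤ C * Real.exp (V * R) := by
    obtain ⟨C, V, hC, hV, hb⟩ := orbit_growth h o
    refine ⟨C, V, hC, hV, fun R hR T hT => ?_⟩
    have h1 := hb R hR (T.map ⟨fun g : H => (g : G), Subtype.coe_injective⟩) (by
      intro g hg
      obtain ⟨g', hg', rfl⟩ := Finset.mem_map.1 hg
      exact hT g' hg')
    rwa [Finset.card_map] at h1
  obtain ⟨S, hS1, hSi, ρ, hρ0, hρ1, hgap⟩ := gap hR
  obtain ⟨c, hc, hsmall⟩ := small_dist o hfin hgrow hρ0 hρ1 hgap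
  intro W hW
  obtain ⟨k, hk⟩ : ∃ k : ℕ, ∀ w ∈ W, w.toWord.length ≤ k :=
    ⟨W.sup fun w => w.toWord.length, fun w hw => Finset.le_sup (f := fun w => w.toWord.length) hw⟩
  have hκ : 0 < c / (2 * k + 1) := by positivity
  obtain ⟨m, x, hm, h1, h2, h3, h4⟩ := select hiso o hS1 hSi hc hsmall hκ
  refine ⟨FreeGroup.lift ![x 0 * (x 1)⁻¹, x 2 * (x 3)⁻¹], fun w hw => ?_⟩
  have hm' : (0 : ℝ) < m := by exact_mod_cast hm
  refine words_ne hiso o x k (c := c * m) (δ := c / (2 * k + 1) * m) (by positivity) ?_ h1 h2 h3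
    h4 w (fun h => hW (h ▸ hw)) (hk w hw)
  have h5 : 2 * (k : ℝ) * (c / (2 * k + 1) * m) = c * m * (2 * k / (2 * k + 1)) := by ring
  rw [h5]
  have h6 : (2 * (k : ℝ) / (2 * k + 1)) < 1 := by
    rw [div_lt_one (by positivity)]
    linarith
  have h7 : 0 < c * m := by positivity
  nlinarith

theorem not_locFree {G : Type u} [Group G] {N : ℕ} (hN : 0 < N) (he : ∀ g : G, g ^ N = 1) :
    ¬ LocFree G := by
  intro hL
  have hne : (FreeGroup.of (0 : Fin 2)) ^ N ≠ 1 := by
    intro h1
    obtain ⟨φ, hφ⟩ : ∃ φ : FreeGroup (Fin 2) →* Multiplicative ℤ,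
        φ (FreeGroup.of 0) = Multiplicative.ofAdd (1 : ℤ) :=
      ⟨FreeGroup.lift fun _ => Multiplicative.ofAdd (1 : ℤ), FreeGroup.lift_apply_of⟩
    have h2 : φ (FreeGroup.of (0 : Fin 2) ^ N) = φ 1 := congrArg φ h1
    rw [map_pow φ, map_one φ, hφ] at h2
    have h3 : Multiplicative.toAdd (Multiplicative.ofAdd (1 : ℤ) ^ N) = 0 := by
      rw [h2]
      rfl
    rw [toAdd_pow, toAdd_ofAdd, nsmul_eq_mul, mul_one] at h3
    exact hN.ne' (by exact_mod_cast h3)
  obtain ⟨f, hf⟩ := hL {(FreeGroup.of (0 : Fin 2)) ^ N} (by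
    rw [Finset.mem_singleton]
    exact fun h1 => hne h1.symm)
  refine hf _ (Finset.mem_singleton_self _) ?_
  rw [map_pow]
  exact he _

theorem reiter_of_exponent {G : Type u} {X : Type v} [Group G] [MetricSpace X] [MulAction G X]
    (h : Act G X) (H : Subgroup G) {N : ℕ} (hN : 0 < N) (he : ∀ g : H, g ^ N = 1) : Reiter H := by
  by_contra hR
  exact not_locFree hN he (locFree_sub h H hR)

end TitsLF
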