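import Pool.Agent.Helper35.TF.Basic
import Pool.Agent.Helper35.TF.SubPart
import Pool.Agent.Helper35.TF.FgSolv
import Pool.Agent.Helper35.TT.Amen

/-!
TF-08 InfOrd. An infinite group acting geometrically on a CAT(0) space contains an element of infinite order.

PROOF. Otherwise all elements have finite order, `exists_exponent` gives `N`, so `G` is not `LocFree` (`not_locFree`), so `Reiter G` (`locFree_of_not_reiter`, in `TT/PartOne.lean`), so `VSolv G` (`vsolv_of_reiter`); `G` is finitely generated
(`exists_gen`, `Group.FG`), so it is finite (`finite_of_vsolv`).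
-/

set_option autoImplicit false

namespace TitsLF

universe u v

theorem exists_not_finOrder {G : Type u} {X : Type v} [Group G] [MetricSpace X] [MulAction G X]
    (h : Act G X) (hinf : Infinite G) : ∃ z : G, ¬ IsOfFinOrder z := by
  by_contra hcon
  push Not at hcon
  obtain ⟨N, hN, he⟩ := exists_exponent h
  have h1 : ¬ LocFree G := not_locFree hN fun g => he g (hcon g)
  have h2 : Reiter G := by
    by_contra hR
    exact h1 (locFree_of_not_reiter h hR)
  have h3 : VSolv G := vsolv_of_reiter h h2
  obtain ⟨S, -, -, hS⟩ := exists_gen h
  haveI : Group.FG G := ⟨⟨S, hS⟩⟩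
  exact not_finite_iff_infinite.2 hinf (finite_of_vsolv hcon h3)

end TitsLF
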