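import Pool.Agent.Helper35.TF.Descend
import Pool.Agent.Helper35.TF.CenInf
import Pool.Agent.Helper35.TF.InfOrd

/-!
TS-09 CaseOneS. The induction step for finitely generated subgroups which are not locally free, with a fixed Busemann type function.

PROOFS.
* `LocFree.of_subgroup`: `K ≤ H`, `LocFree K` implies `LocFree H` (compose with `Subgroup.inclusion`). `LocFree.of_surjective`: `π : H →* Q` surjective, `LocFree Q` implies `LocFree H`: lift `f : FreeGroup (Fin 2) →* Q` to `FreeGroup.lift (fun i => a preimage of f (of i))`; `π.comp lift = f` (`FreeGroup.ext_hom`).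
* `vsolv_of_central_ker`: `π : H →* Q` surjective with kernel in the center, `VSolv Q` implies `VSolv H` (`vsolv_of_central` for `N = π.ker`; `VSolv (H ⧸ π.ker)` from `VSolv Q` by the isomorphism `QuotientGroup.quotientKerEquivOfSurjective`; transport of `VSolv` along an isomorphism: `Subgroup.comap`/`map`).
* `vsolv_of_bus`: `centralizer_infinite`, `act_centralizer`, `exists_not_finOrder` give `z` of infinite order in `centralizer S` (as in `finite_of_bus`, `CaseOne.lean`), `descend` gives `π : Z →* Q` with `Z = centralizer {z}`, `closure S ≤ Z`. Let `S' : Finset Q` be the image under `π` of the elements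
  `⟨s, _⟩ : Z` (`s ∈ S`); `closure S'` is the image of `H' = (closure S).subgroupOf Z` (`MonoidHom.map_closure`, `Subgroup.subgroupOf`). The restriction `H' →* closure S'` is surjective with central kernel. If `closure S'` were locally free then so would be `H'` and `closure S` (`≃ H'`, `Subgroup.subgroupOfEquivOfLe`).
  So `ih` gives `VSolv (closure S')`, and `VSolv H'`, `VSolv (closure S)`.
-/

set_option autoImplicit false

namespace TitsLF

universe u v

theorem locFree_of_surjective {H Q : Type u} [Group H] [Group Q] (π : H →* Q)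
    (hπ : Function.Surjective π) (h : LocFree Q) : LocFree H := by
  intro W hW
  obtain ⟨f, hf⟩ := h W hW
  choose a ha using fun i : Fin 2 => hπ (f (FreeGroup.of i))
  refine ⟨FreeGroup.lift a, fun w hw hw1 => hf w hw ?_⟩
  have h1 : π.comp (FreeGroup.lift a) = f := by
    refine FreeGroup.ext_hom _ _ (fun i => ?_)
    rw [MonoidHom.comp_apply, FreeGroup.lift_apply_of]
    exact ha i
  rw [← h1, MonoidHom.comp_apply, hw1, map_one]

theorem locFree_of_injective {H G : Type u} [Group H] [Group G] (i : H →* G)
    (hi : Function.Injective i) (h : LocFree H) : LocFree G := by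
  intro W hW
  obtain ⟨f, hf⟩ := h W hW
  refine ⟨i.comp f, fun w hw hw1 => hf w hw ?_⟩
  rw [MonoidHom.comp_apply] at hw1
  exact hi (by rw [hw1, map_one])

theorem vsolv_of_central_ker {H Q : Type u} [Group H] [Group Q] (π : H →* Q)
    (hπ : Function.Surjective π) (hc : π.ker ≤ Subgroup.center H) (h : VSolv Q) : VSolv H := by
  obtain ⟨H', hfin, hsol⟩ := h
  refine ⟨H'.comap π, ⟨?_⟩, ?_⟩
  · rw [Subgroup.index_comap_of_surjective _ hπ]
    exact hfin.index_ne_zero
  · have hNH : π.ker ≤ H'.comap π := by
      intro x hx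
      rw [Subgroup.mem_comap, MonoidHom.mem_ker.1 hx]
      exact H'.one_mem
    have hNs : Group.IsSolvable π.ker := by
      refine Group.isSolvable_of_comm fun a b => ?_
      have h1 := Subgroup.mem_center_iff.1 (hc a.2) b
      exact Subtype.ext h1.symm
    refine Group.isSolvable_of_ker_le_range (Subgroup.inclusion hNH) (π.subgroupComap H') ?_
    rintro ⟨x, hx⟩ hx'
    rw [MonoidHom.mem_ker] at hx'
    have h1 : π x = 1 := congrArg Subtype.val hx'
    exact ⟨⟨x, MonoidHom.mem_ker.2 h1⟩, rfl⟩

theorem vsolv_of_bus {G : Type u} {X : Type v} [Group G] [MetricSpace X] [MulAction G X]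
    (h : Act G X) {n : ℕ} (hn : ¬ Frame X (n + 1))
    (ih : ∀ (Q : Type u) (Y : Type v) [Group Q] [MetricSpace Y] [MulAction Q Y], Act Q Y →
      ¬ Frame Y n → ∀ S : Finset Q, ¬ LocFree (Subgroup.closure (S : Set Q)) →
        VSolv (Subgroup.closure (S : Set Q)))
    (S : Finset G) (hS : ¬ LocFree (Subgroup.closure (S : Set G)))
    {b : X → ℝ} (hb : IsBus b) (hq : QInv (Subgroup.closure (S : Set G)) b) :
    VSolv (Subgroup.closure (S : Set G)) := by
  have hinf := centralizer_infinite h S hb hq
  obtain ⟨C, hC, -⟩ := act_centralizer h S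
  obtain ⟨z, hz⟩ := exists_not_finOrder hC hinf
  have hz' : ¬ IsOfFinOrder (z : G) := fun hf => hz (Submonoid.isOfFinOrder_coe.1 hf)
  have hle : Subgroup.closure (S : Set G) ≤
      Subgroup.centralizer ((({(z : G)} : Finset G)) : Set G) := by
    rw [Subgroup.closure_le]
    intro s hs
    rw [SetLike.mem_coe, Subgroup.mem_centralizer_iff]
    intro y hy
    have hy' : y = z := by simpa using hy
    rw [hy']
    exact (Subgroup.mem_centralizer_iff.1 z.2 s hs).symm
  obtain ⟨Q, iQ, Y, iY, iA, π, hAct, hFr, hsurj, hker, -, -⟩ := descend h hz'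
  set θ : Subgroup.closure (S : Set G) →* Q := π.comp (Subgroup.inclusion hle) with hθ
  have hfin : (θ '' (((↑) : Subgroup.closure (S : Set G) → G) ⁻¹' (S : Set G))).Finite :=
    (S.finite_toSet.preimage Subtype.val_injective.injOn).image θ
  have hrange : Subgroup.closure ((hfin.toFinset : Finset Q) : Set Q) = θ.range := by
    rw [Set.Finite.coe_toFinset, ← MonoidHom.map_closure, Subgroup.closure_closure_coe_preimage,
      MonoidHom.range_eq_map]
  have hsr := θ.rangeRestrict_surjective
  have h1 : ¬ LocFree θ.range := fun hl => hS (locFree_of_surjective θ.rangeRestrict hsr hl)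
  have h2 := ih Q Y hAct (fun hF => hn (hFr n hF)) hfin.toFinset (by
    rw [hrange]
    exact h1)
  rw [hrange] at h2
  refine vsolv_of_central_ker θ.rangeRestrict hsr ?_ h2
  rw [MonoidHom.ker_rangeRestrict]
  intro x hx
  have h3 : π (Subgroup.inclusion hle x) = 1 := hx
  have h4 := Subgroup.mem_center_iff.1 (hker _ h3)
  rw [Subgroup.mem_center_iff]
  intro y
  have h5 := h4 (Subgroup.inclusion hle y)
  have h6 := congrArg Subtype.val h5
  exact Subtype.ext h6

end TitsLF
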