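import Pool.Agent.Helper35.TF.Defs
import Pool.Agent.Helper35.TT.Rep

/-!
TF-16 RepW. `exists_rep` (`TT/Rep.lean`) for isometric actions on proper CAT(0) spaces (the same proof).
-/

set_option autoImplicit false

namespace TitsLF

universe u v

open scoped RealInnerProductSpace

variable {G : Type u} {X : Type v} [Group G] [MetricSpace X] [MulAction G X]

theorem tr_mem_Fl_w (h : WAct G X) (o : X) (g : G) (k : Fl o) : tr o g k.1 ∈ Fl o := by
  haveI := h.cat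
  refine ⟨?_, ?_, ?_⟩
  · have h1 := (k.2.1.translate h.iso g).add_const (-(k.1 (g⁻¹ • o)))
    have h2 : (fun x => k.1 (g⁻¹ • x) + -(k.1 (g⁻¹ • o))) = tr o g k.1 := by
      funext x
      unfold tr
      ring
    rwa [h2] at h1
  · intro x y m hm
    have h1 := k.2.2.1 _ _ _ (IsMid.map (f := fun x => g⁻¹ • x) (h.iso g⁻¹) hm)
    unfold tr
    change k.1 (g⁻¹ • m) = (k.1 (g⁻¹ • x) + k.1 (g⁻¹ • y)) / 2 at h1
    rw [h1]
    ring
  · unfold tr
    ring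

variable [CAT X]

private theorem eq_of_inner {n : ℕ} {I : Type v} {e : I → EuclideanSpace ℝ (Fin n)}
    (hspan : Submodule.span ℝ (Set.range e) = ⊤) {v w : EuclideanSpace ℝ (Fin n)}
    (h : ∀ i, ⟪e i, v⟫ = ⟪e i, w⟫) : v = w := by
  refine ext_inner_left ℝ fun u => ?_
  have hu : u ∈ Submodule.span ℝ (Set.range e) := by rw [hspan]; trivial
  refine Submodule.span_induction (p := fun u _ => ⟪u, v⟫ = ⟪u, w⟫) ?_ ?_ ?_ ?_ hu
  · rintro _ ⟨i, rfl⟩
    exact h i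
  · rw [inner_zero_left, inner_zero_left]
  · intro x y _ _ hx hy
    rw [inner_add_left, inner_add_left, hx, hy]
  · intro c x _ hx
    rw [real_inner_smul_left, real_inner_smul_left, hx]

private theorem eq_of_range {n : ℕ} {I : Type v} {e : I → EuclideanSpace ℝ (Fin n)}
    (hspan : Submodule.span ℝ (Set.range e) = ⊤)
    {U V : EuclideanSpace ℝ (Fin n) ≃ₗᵢ[ℝ] EuclideanSpace ℝ (Fin n)}
    (h : ∀ i, U (e i) = V (e i)) : U = V := by
  have h1 : (U.toLinearEquiv : EuclideanSpace ℝ (Fin n) →ₗ[ℝ] EuclideanSpace ℝ (Fin n)) =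
      (V.toLinearEquiv : EuclideanSpace ℝ (Fin n) →ₗ[ℝ] EuclideanSpace ℝ (Fin n)) :=
    LinearMap.ext_on_range hspan fun i => h i
  ext1 v
  exact LinearMap.congr_fun h1 v

theorem exists_rep_w (h : WAct G X) (o : X) {n : ℕ} (e : Fl o → EuclideanSpace ℝ (Fin n))
    (β : X → EuclideanSpace ℝ (Fin n)) (he : ∀ k l : Fl o, ⟪e k, e l⟫ = cc o k.1 l.1)
    (hspan : Submodule.span ℝ (Set.range e) = ⊤) (hβ : ∀ (k : Fl o) (x : X), ⟪e k, β x⟫ = k.1 x) :
    ∃ A : G →* (EuclideanSpace ℝ (Fin n) ≃ₗᵢ[ℝ] EuclideanSpace ℝ (Fin n)),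
      (∀ (g : G) (k : Fl o), A g (e k) = e ⟨tr o g k.1, tr_mem_Fl_w h o g k⟩) ∧
      ∀ (g : G) (x : X), β (g • x) = A g (β x) + β (g • o) := by
  have htr : ∀ (g : G) (k : X → ℝ), tr o g k = fun x => k (g⁻¹ • x) + -(k (g⁻¹ • o)) := by
    intro g k
    funext x
    unfold tr
    ring
  have hex : ∀ g : G, ∃ U : EuclideanSpace ℝ (Fin n) ≃ₗᵢ[ℝ] EuclideanSpace ℝ (Fin n),
      ∀ k : Fl o, U (e k) = e ⟨tr o g k.1, tr_mem_Fl_w h o g k⟩ := by
    intro g
    refine exists_linIso e (fun k => e ⟨tr o g k.1, tr_mem_Fl_w h o g k⟩) hspan fun k l => ?_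
    rw [he, he]
    show cc o k.1 l.1 = cc o (tr o g k.1) (tr o g l.1)
    rw [htr, htr, cc_translate h.iso k.2.1 l.2.2.1 l.2.1.lip g o]
  choose A₀ hA₀ using hex
  have hmul : ∀ g g' : G, A₀ (g * g') = A₀ g * A₀ g' := by
    intro g g'
    refine eq_of_range hspan fun k => ?_
    show A₀ (g * g') (e k) = A₀ g (A₀ g' (e k))
    rw [hA₀, hA₀, hA₀]
    congr 1
    apply Subtype.ext
    show tr o (g * g') k.1 = tr o g (tr o g' k.1)
    funext x
    unfold tr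
    rw [mul_inv_rev, mul_smul, mul_smul]
    ring
  refine ⟨MonoidHom.mk' A₀ hmul, fun g k => hA₀ g k, fun g x => ?_⟩
  show β (g • x) = A₀ g (β x) + β (g • o)
  refine eq_of_inner hspan fun k => ?_
  rw [inner_add_right, hβ, hβ]
  have h1 : A₀ g (A₀ g⁻¹ (e k)) = e k := by
    have h2 : A₀ g * A₀ g⁻¹ = 1 := by
      have h3 : A₀ 1 * A₀ 1 = A₀ 1 := by rw [← hmul, one_mul]
      rw [← hmul, mul_inv_cancel]
      exact mul_eq_left.1 h3
    show (A₀ g * A₀ g⁻¹) (e k) = e k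
    rw [h2]
    rfl
  have h2 : ⟪e k, A₀ g (β x)⟫ = ⟪A₀ g⁻¹ (e k), β x⟫ := by
    conv_lhs => rw [← h1]
    exact LinearIsometryEquiv.inner_map_map _ _ _
  rw [h2, hA₀, hβ]
  show k.1 (g • x) = tr o g⁻¹ k.1 x + k.1 (g • o)
  unfold tr
  rw [inv_inv]
  ring

end TitsLF
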