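import Pool.Agent.Helper35.TF.Defs
import Pool.Agent.Helper35.TT.Steep

/-!
TS-01 SteepW. `steep` and `qinv_const` (`TT/Steep.lean`) for isometric actions on proper CAT(0) spaces (the same proofs).
-/

set_option autoImplicit false

namespace TitsLF

open Filter Topology

universe u v

variable {G : Type u} {X : Type v} [Group G] [MetricSpace X] [MulAction G X]

theorem steep_w (h : WAct G X) {A : X → ℝ} {L : ℝ} (hA : MConvex A)
    (hL : ∀ x y, |A x - A y| ≤ L * dist x y) (hq : QInv G A) (g₀ : G) (x₀ : X)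
    (hne : A (g₀ • x₀) ≠ A x₀) : ∃ b : X → ℝ, IsBus b ∧ QInv G b := by
  have := h.cat
  have hAc : Continuous A := by
    have : LipschitzWith (Real.toNNReal L) A := by
      apply LipschitzWith.of_dist_le_mul
      intro x y
      rw [Real.dist_eq]
      refine (hL x y).trans ?_
      gcongr
      exact Real.le_coe_toNNReal L
    exact this.continuous
  set χ : G → ℝ := fun g => A (g • x₀) - A x₀ with hχ
  have hχx : ∀ (g : G) (x : X), A (g • x) = A x + χ g := by
    intro g x
    have := hq g x x₀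
    simp only [hχ]; linarith
  have hχm : ∀ g k : G, χ (g * k) = χ g + χ k := by
    intro g k
    have := hχx g (k • x₀)
    simp only [hχ, mul_smul] at this ⊢
    linarith
  have hχ1 : χ 1 = 0 := by simp [hχ]
  have hχi : ∀ g : G, χ g⁻¹ = - χ g := by
    intro g
    have := hχm g g⁻¹
    rw [mul_inv_cancel, hχ1] at this
    linarith
  have hg₀ : χ g₀ ≠ 0 := by
    simp only [hχ]; intro h0; exact hne (by linarith)
  obtain ⟨g₁, hg₁⟩ : ∃ g₁ : G, χ g₁ < 0 := by
    rcases lt_or_gt_of_ne hg₀ with h1 | h1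
    · exact ⟨g₀, h1⟩
    · exact ⟨g₀⁻¹, by rw [hχi]; linarith⟩
  have hχp : ∀ n : ℕ, χ (g₁ ^ n) = n * χ g₁ := by
    intro n
    induction n with
    | zero => simp [hχ1]
    | succ n ih => rw [pow_succ, hχm, ih]; push_cast; ring
  have hdp : ∀ n : ℕ, dist x₀ (g₁ ^ n • x₀) ≤ n * dist x₀ (g₁ • x₀) := by
    intro n
    induction n with
    | zero => simp
    | succ n ih =>
      calc dist x₀ (g₁ ^ (n+1) • x₀) ≤ dist x₀ (g₁ ^ n • x₀) + dist (g₁ ^ n • x₀) (g₁ ^ (n+1) • x₀) :=
            dist_triangle _ _ _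
        _ ≤ n * dist x₀ (g₁ • x₀) + dist x₀ (g₁ • x₀) := by
            rw [pow_succ, mul_smul, h.iso]; linarith
        _ = _ := by push_cast; ring
  set d := dist x₀ (g₁ • x₀) with hd
  have hdpos : 0 < d := by
    rw [hd, dist_pos]
    intro h0
    have h1 : χ g₁ = 0 := by simp only [hχ]; rw [← h0]; ring
    linarith
  set a := - χ g₁ / d with ha
  have hapos : 0 < a := div_pos (by linarith) hdpos
  have had : a * d = - χ g₁ := by rw [ha]; field_simp
  -- minimisers on balls
  have hmin : ∀ t : ℝ, ∃ x : X, 0 ≤ t → dist x₀ x ≤ t ∧ ∀ y, dist x₀ y ≤ t → A x ≤ A y := by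
    intro t
    by_cases ht : 0 ≤ t
    · obtain ⟨x, hx, hx2⟩ := (h.prop x₀ t).exists_isMinOn ⟨x₀, by simpa using ht⟩ hAc.continuousOn
      refine ⟨x, fun _ => ⟨by simpa [dist_comm] using hx, fun y hy => hx2 ?_⟩⟩
      simpa [dist_comm] using hy
    · exact ⟨x₀, fun h0 => absurd h0 ht⟩
  choose x hx using hmin
  have hxd : ∀ t, 0 ≤ t → dist x₀ (x t) ≤ t := fun t ht => (hx t ht).1
  have hxm : ∀ t, 0 ≤ t → ∀ y, dist x₀ y ≤ t → A (x t) ≤ A y := fun t ht => (hx t ht).2
  -- slope
  have slope : ∀ ρ t : ℝ, 0 ≤ ρ → ρ ≤ t → a * (t - ρ) ≤ A (x ρ) - A (x t) := by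
    intro ρ t hρ ht
    rcases ht.eq_or_lt with rfl | hlt
    · simp
    have ht0 : 0 ≤ t := hρ.trans ht
    have key : ∀ n : ℕ, t < n * d → (n * d - ρ) * A (x t) ≤
        (n * d - t) * A (x ρ) + (t - ρ) * (A x₀ - a * (n * d)) := by
      intro n hn
      have hn0 : (0:ℝ) ≤ n * d := by positivity
      have hpos : 0 < n * d - ρ := by linarith
      set s := (t - ρ) / (n * d - ρ) with hs
      have hs01 : s ∈ Set.Icc (0:ℝ) 1 := by
        constructor
        · exact div_nonneg (by linarith) hpos.le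
        · rw [hs, div_le_one hpos]; linarith
      have hsm : s * (n * d - ρ) = t - ρ := by rw [hs]; field_simp
      have h1 : dist x₀ (seg (x ρ) (x (n * d)) s) ≤ t := by
        have h2 := (dist_mconvex x₀).on_seg (continuous_const.dist continuous_id) (x ρ) (x (n * d)) hs01
        refine h2.trans ?_
        have h3 := hxd ρ hρ
        have h4 := hxd (n * d) hn0
        have h5 : (1 - s) * dist x₀ (x ρ) ≤ (1 - s) * ρ :=
          mul_le_mul_of_nonneg_left h3 (by linarith [hs01.2])
        have h6 : s * dist x₀ (x (n * d)) ≤ s * (n * d) :=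
          mul_le_mul_of_nonneg_left h4 hs01.1
        have h7 : (1 - s) * ρ + s * (n * d) = t := by linear_combination hsm
        linarith
      have h2 := hxm t ht0 _ h1
      have h3 := hA.on_seg hAc (x ρ) (x (n * d)) hs01
      have h4 : A (x (n * d)) ≤ A x₀ - a * (n * d) := by
        have h5 := hxm (n * d) hn0 (g₁ ^ n • x₀) (hdp n)
        rw [hχx, hχp] at h5
        have : a * (n * d) = - (n * χ g₁) := by linear_combination (n:ℝ) * had
        linarith
      have h5 : s * A (x (n * d)) ≤ s * (A x₀ - a * (n * d)) := mul_le_mul_of_nonneg_left h4 hs01.1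
      have h6 : A (x t) ≤ (1 - s) * A (x ρ) + s * (A x₀ - a * (n * d)) := by linarith
      have h7 := mul_le_mul_of_nonneg_left h6 hpos.le
      have h8 : (n * d - ρ) * ((1 - s) * A (x ρ) + s * (A x₀ - a * (n * d))) =
          (n * d - t) * A (x ρ) + (t - ρ) * (A x₀ - a * (n * d)) := by
        linear_combination (A x₀ - a * (n * d) - A (x ρ)) * hsm
      linarith
    -- pass to the limit
    by_contra hcon
    push Not at hcon
    obtain ⟨n, hn⟩ := exists_nat_gt (max (t / d) ((-(t * A (x ρ)) + (t - ρ) * A x₀ + ρ * A (x t)) /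
      (d * -(A (x ρ) - A (x t) - a * (t - ρ)))))
    have hn1 : t < n * d := by
      have := (le_max_left _ _).trans_lt hn
      rwa [div_lt_iff₀ hdpos] at this
    have hpos2 : 0 < d * -(A (x ρ) - A (x t) - a * (t - ρ)) := mul_pos hdpos (by linarith)
    have hn2 : -(t * A (x ρ)) + (t - ρ) * A x₀ + ρ * A (x t) < n *
      (d * -(A (x ρ) - A (x t) - a * (t - ρ))) := by
      have := (le_max_right _ _).trans_lt hn
      rwa [div_lt_iff₀ hpos2] at this
    have := key n hn1
    nlinarith
  -- the minimisers lie on the spheres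
  have hxeq : ∀ t, 0 ≤ t → dist x₀ (x t) = t := by
    intro t ht
    refine le_antisymm (hxd t ht) ?_
    have h1 := slope (dist x₀ (x t)) t dist_nonneg (hxd t ht)
    have h2 := hxm (dist x₀ (x t)) dist_nonneg (x t) le_rfl
    by_contra h3
    push Not at h3
    have : 0 < a * (t - dist x₀ (x t)) := mul_pos hapos (by linarith)
    linarith
  -- displacement of the minimisers
  have disp : ∀ g : G, ∃ C : ℝ, ∀ t : ℝ, C ≤ t → 0 ≤ t → dist (g • x t) (x t) ^ 2 ≤ C * t + C ^ 2 := by
    intro g
    set c := |χ g| / a with hc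
    have hc0 : 0 ≤ c := div_nonneg (abs_nonneg _) hapos.le
    have hca : a * c = |χ g| := by rw [hc]; field_simp
    set D := dist x₀ (g • x₀) with hD
    have hD0 : 0 ≤ D := dist_nonneg
    refine ⟨4 * D + 8 * c, fun t hCt ht => ?_⟩
    have hct : c ≤ t := by linarith
    have hy : dist x₀ (g • x t) ≤ D + t := by
      refine (dist_triangle x₀ (g • x₀) (g • x t)).trans ?_
      rw [h.iso, hxeq t ht]
    have hcn := cn_mid x₀ (g • x t) (x t)
    have hm := mid_spec (g • x t) (x t)
    have hAm := hA _ _ _ hm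
    rw [hχx] at hAm
    have hρ : t - c ≤ dist x₀ (mid (g • x t) (x t)) := by
      by_contra h3
      push Not at h3
      have h4 := slope (dist x₀ (mid (g • x t) (x t))) t dist_nonneg (by linarith)
      have h5 := hxm (dist x₀ (mid (g • x t) (x t))) dist_nonneg _ le_rfl
      have h6 : a * c < a * (t - dist x₀ (mid (g • x t) (x t))) :=
        mul_lt_mul_of_pos_left (by linarith) hapos
      have h7 := le_abs_self (χ g)
      have h8 := abs_nonneg (χ g)
      linarith
    have h9 : (t - c) ^ 2 ≤ dist x₀ (mid (g • x t) (x t)) ^ 2 := by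
      apply pow_le_pow_left₀ (by linarith) hρ
    have h10 : dist x₀ (g • x t) ^ 2 ≤ (D + t) ^ 2 := pow_le_pow_left₀ dist_nonneg hy 2
    rw [hxeq t ht] at hcn
    nlinarith [mul_nonneg hD0 hc0, mul_nonneg hD0 hD0, mul_nonneg hc0 hc0]
  have disp2 : ∀ g : G, Tendsto (fun n : ℕ => dist (x n) (g • x n) / (n:ℝ)) atTop (𝓝 0) := by
    intro g
    obtain ⟨C, hC⟩ := disp g
    have h1 : Tendsto (fun n : ℕ => C * ((n:ℝ))⁻¹ + C ^ 2 * ((n:ℝ)⁻¹) ^ 2) atTop (𝓝 0) := by
      have h2 : Tendsto (fun n : ℕ => ((n:ℝ))⁻¹) atTop (𝓝 0) := tendsto_inv_atTop_nhds_zero_nat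
      have h3 := (h2.const_mul C).add ((h2.pow 2).const_mul (C ^ 2))
      simpa using h3
    have h2 : Tendsto (fun n : ℕ => (dist (x n) (g • x n) / (n:ℝ)) ^ 2) atTop (𝓝 0) := by
      refine tendsto_of_tendsto_of_tendsto_of_le_of_le' tendsto_const_nhds h1
        (Filter.Eventually.of_forall fun n => by positivity) ?_
      obtain ⟨N, hN⟩ := exists_nat_ge C
      filter_upwards [eventually_ge_atTop (max N 1)] with n hn
      have hn1 : (1:ℝ) ≤ n := by exact_mod_cast (le_max_right _ _).trans hn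
      have hnN : (N:ℝ) ≤ n := by exact_mod_cast (le_max_left _ _).trans hn
      have h4 := hC n (hN.trans hnN) (by positivity)
      rw [dist_comm (g • x n)] at h4
      have hn0 : (0:ℝ) < n := by linarith
      rw [div_pow, div_le_iff₀ (by positivity)]
      refine h4.trans (le_of_eq ?_)
      field_simp
    have h3 := h2.sqrt
    rw [Real.sqrt_zero] at h3
    refine h3.congr fun n => ?_
    rw [Real.sqrt_sq (by positivity)]
  -- the Busemann function
  have hp : Tendsto (fun n : ℕ => dist x₀ (x (n:ℝ))) atTop atTop := by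
    refine (tendsto_natCast_atTop_atTop (R := ℝ)).congr fun n => ?_
    rw [hxeq n (by positivity)]
  obtain ⟨b, F, hF, hFle, hb, -, hlim, -⟩ := bus_of_seq h.prop x₀ (fun n : ℕ => x (n:ℝ)) hp
  refine ⟨b, hb, fun g y z => ?_⟩
  have hlim1 : Tendsto (fun n : ℕ => (dist (g • y) (x n) - dist (g • z) (x n))) F
      (𝓝 (b (g • y) - b (g • z))) := by
    have := (hlim (g • y)).sub (hlim (g • z))
    refine this.congr fun n => ?_
    ring
  have hlim2 : Tendsto (fun n : ℕ => (dist y (x n) - dist z (x n))) F (𝓝 (b y - b z)) := by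
    have := (hlim y).sub (hlim z)
    refine this.congr fun n => ?_
    ring
  have hr : Tendsto (fun n : ℕ => (n:ℝ)) F atTop := (tendsto_natCast_atTop_atTop (R := ℝ)).mono_left hFle
  have hp1 : Tendsto (fun n : ℕ => dist x₀ (x (n:ℝ)) / (n:ℝ)) F (𝓝 1) := by
    have h1 : Tendsto (fun n : ℕ => dist x₀ (x (n:ℝ)) / (n:ℝ)) atTop (𝓝 1) := by
      refine tendsto_const_nhds.congr' ?_
      filter_upwards [eventually_ge_atTop 1] with n hn
      have hn1 : (1:ℝ) ≤ n := by exact_mod_cast hn
      rw [hxeq n (by positivity), div_self (by positivity)]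
    exact h1.mono_left hFle
  have hcross := cross_tendsto x₀ y z (fun n : ℕ => x (n:ℝ)) (fun n : ℕ => g⁻¹ • x (n:ℝ)) (fun n : ℕ => (n:ℝ))
    hr hp1 ((disp2 g⁻¹).mono_left hFle)
  have hinv : ∀ (u v : X), dist u (g⁻¹ • v) = dist (g • u) v := by
    intro u v
    rw [← h.iso g u (g⁻¹ • v), smul_inv_smul]
  have h5 := hlim1.sub hlim2
  have h6 : Tendsto (fun n : ℕ => (dist (g • y) (x n) - dist (g • z) (x n)) - (dist y (x n) - dist z (x n))) F
      (𝓝 0) := by
    refine hcross.congr fun n => ?_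
    rw [hinv, hinv]; ring
  have h7 := tendsto_nhds_unique h5 h6
  linarith

theorem qinv_const_w (h : WAct G X) (hm : Minimal G X) (hno : ∀ b : X → ℝ, IsBus b → ¬ QInv G b)
    {A : X → ℝ} {L : ℝ} (hA : MConvex A) (hL : ∀ x y, |A x - A y| ≤ L * dist x y)
    (hq : QInv G A) (x y : X) : A x = A y := by
  have := h.cat
  have hAc : Continuous A := by
    have : LipschitzWith (Real.toNNReal L) A := by
      apply LipschitzWith.of_dist_le_mul
      intro x y
      rw [Real.dist_eq]
      refine (hL x y).trans ?_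
      gcongr
      exact Real.le_coe_toNNReal L
    exact this.continuous
  by_cases hi : ∀ (g : G) (x : X), A (g • x) = A x
  · exact minimal_const hm hA hAc hi x y
  · push Not at hi
    obtain ⟨g, z, hgz⟩ := hi
    obtain ⟨b, hb, hb2⟩ := steep_w h hA hL hq g z hgz
    exact absurd hb2 (hno b hb)

end TitsLF
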