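import Pool.Agent.Helper35.TF.MinEx
import Pool.Agent.Helper35.TF.SteepW
import Pool.Agent.Helper35.TF.BusExt
import Pool.Agent.Helper35.TF.FibW
import Pool.Agent.Helper35.TF.RepW
import Pool.Agent.Helper35.TF.BiebD
import Pool.Agent.Helper35.TT.Model

/-!
TS-08 CaseTwoS. A finitely generated amenable group acting properly on a proper CAT(0) space with bounded frames has a fixed Busemann type function or
is virtually solvable.

PROOF. Suppose there is no fixed Busemann type function on `X`. `bus_or_minimal` gives `C`; by `bus_extend` there is no fixed Busemann type function on `C`; so convex Lipschitz functions on `C` which are invariant up to constants are constant (`qinv_const_w`).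
`exists_model` (for `C`, `o : C`, `¬ Frame C n₀`), `exists_rep_w`; `a g = β (g • o)`, `β o = 0` (`⟪e k, β o⟫ = k o = 0`, the `e k` span), `a (g k) = β (g • (k • o)) = A g (a k) + a g`. `fib_bdd_w`: `{g | ‖a g‖ ≤ R} ⊆ {g | dist (g • o) o ≤ R'}`, finite by `hfin`. `vsolv_of_discrete`.
-/

set_option autoImplicit false

namespace TitsLF

universe u v

open scoped RealInnerProductSpace

theorem bus_or_vsolv {G : Type u} {X : Type v} [Group G] [MetricSpace X] [MulAction G X]
    [Group.FG G] (h : WAct G X) (hfin : ∀ (x : X) (R : ℝ), {g : G | dist (g • x) x ≤ R}.Finite)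
    (hR : Reiter G) {n₀ : ℕ} (hn : ¬ Frame X n₀) :
    (∃ b : X → ℝ, IsBus b ∧ QInv G b) ∨ VSolv G := by
  rcases bus_or_minimal h with hb | ⟨C, hC, hmin, hfr⟩
  · exact Or.inl hb
  by_cases hbX : ∃ b : X → ℝ, IsBus b ∧ QInv G b
  · exact Or.inl hbX
  right
  have hno : ∀ b : C → ℝ, IsBus b → ¬ QInv G b := fun b hb hq => hbX (bus_extend h C hC hb hq)
  have hcat := hC.cat
  obtain ⟨o⟩ := hC.ne
  have hqc : ∀ (A : C → ℝ) (L : ℝ), MConvex A → (∀ x y, |A x - A y| ≤ L * dist x y) → QInv G A →
      ∀ x y, A x = A y := fun A L hA hL hq x y => qinv_const_w hC hmin hno hA hL hq x y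
  obtain ⟨n, e, β, he, hspan, hβ⟩ := exists_model o (fun hF => hn (hfr n₀ hF))
  obtain ⟨A, -, hAβ⟩ := exists_rep_w hC o e β he hspan hβ
  have hβo : β o = 0 := by
    have h1 : ∀ v ∈ Submodule.span ℝ (Set.range e), ⟪v, β o⟫ = 0 := by
      intro v hv
      induction hv using Submodule.span_induction with
      | mem v hv => obtain ⟨k, rfl⟩ := hv; rw [hβ]; exact k.2.2.2
      | zero => exact inner_zero_left _
      | add x y _ _ hx hy => rw [inner_add_left, hx, hy, add_zero]
      | smul c x _ hx => rw [inner_smul_left, hx, mul_zero]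
    have h2 := h1 (β o) (by rw [hspan]; trivial)
    exact inner_self_eq_zero.1 h2
  obtain ⟨a, haβ⟩ : ∃ a : G → EuclideanSpace ℝ (Fin n), ∀ g, a g = β (g • o) := ⟨_, fun _ => rfl⟩
  have ha : ∀ g k, a (g * k) = a g + A g (a k) := by
    intro g k
    rw [haβ, haβ, haβ, mul_smul, hAβ g (k • o), add_comm]
  refine vsolv_of_discrete A a ha fun R => ?_
  obtain ⟨R', hR'⟩ := fib_bdd_w hC hqc hR o e β hβ R
  refine (hfin (o : X) R').subset fun g hg => ?_
  have h3 := hR' (g • o) (by rw [← haβ]; exact hg)
  rw [dist_comm] at h3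
  exact h3

end TitsLF
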