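import Pool.Agent.Helper35.TF.Energy
import Pool.Agent.Helper35.TF.Basic

/-!
TF-06 CenCoc. The centralizer of a finite set acts geometrically on the set of minimal energy.

PROOF. `C = {x | ∀ y, en S x ≤ en S y}`: nonempty (`en_attained`), closed (`en_continuous`), midpoint closed (`en_mconvex`), invariant under `Z = centralizer S` (`en_centralizer`). As a `SubMulAction Z X` (`h.wact.sub Z` and
`WAct.restrict`). `fin`: `Z → G` is injective, `h.fin`. Frames: `Subtype.val` preserves distances.
`coc`: let `o ∈ C`, `e₀` the minimal energy. Suppose there is no `D'` for `o`: for every `n : ℕ` there is `x n ∈ C` with `dist (z • x n) o > n` for all `z ∈ Z`. `pigeon` (`M = e₀`, base point `o`) gives `a`, `D`, `m` and the infinite set `I`: for `n ∈ I` the element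
`z = (a m)⁻¹ * a n ∈ Z` satisfies `dist (z • x n) o ≤ dist (z • x n) ((a m)⁻¹ • o) + dist ((a m)⁻¹ • o) o ≤ D + dist ((a m)⁻¹ • o) o`, a constant; contradiction for large `n ∈ I`.
-/

set_option autoImplicit false

namespace TitsLF

universe u v

theorem act_centralizer {G : Type u} {X : Type v} [Group G] [MetricSpace X] [MulAction G X]
    (h : Act G X) (S : Finset G) :
    ∃ C : SubMulAction (Subgroup.centralizer (S : Set G)) X,
      Act (Subgroup.centralizer (S : Set G)) C ∧ ∀ n, Frame C n → Frame X n := by
  have : CAT X := h.cat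
  let C : SubMulAction (Subgroup.centralizer (S : Set G)) X :=
    { carrier := {x : X | ∀ y : X, en S x ≤ en S y}
      smul_mem' := by
        intro z x hx y
        have e : en S (z • x) = en S x := en_centralizer h.iso S z.2 x
        rw [e]
        exact hx y }
  have hC : ∀ x : X, x ∈ C ↔ ∀ y, en S x ≤ en S y := fun x => Iff.rfl
  have hcl : IsClosed (C : Set X) := by
    have e : (C : Set X) = ⋂ y : X, {x : X | en S x ≤ en S y} := by
      ext x
      simp only [Set.mem_iInter, Set.mem_ofPred_eq]
      exact hC x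
    rw [e]
    exact isClosed_iInter (fun y => isClosed_le (en_continuous h.iso S) continuous_const)
  have hne : (C : Set X).Nonempty := en_attained h S
  have hm : MClosed (C : Set X) := by
    intro x y m hx hy hxy w
    have h1 := en_mconvex h.iso S x y m hxy
    have h2 := (hC x).1 hx w
    have h3 := (hC y).1 hy w
    linarith
  have hw : WAct (Subgroup.centralizer (S : Set G)) C :=
    WAct.restrict (h.wact.sub (Subgroup.centralizer (S : Set G))) C hcl hne hm
  refine ⟨C, ⟨hw.ne, hw.iso, hw.cat, hw.prop, ?_, ?_⟩, ?_⟩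
  · intro x R
    exact (h.fin (x : X) R).preimage (Subtype.val_injective.injOn)
  · intro o
    by_contra hcon
    push Not at hcon
    have h1 : ∀ n : ℕ, ∃ x : C, ∀ z : Subgroup.centralizer (S : Set G),
        (n : ℝ) < dist (z • x) o := fun n => hcon n (Nat.cast_nonneg n)
    choose x hx using h1
    obtain ⟨D, hD, hp⟩ := pigeon h S (o : X)
    obtain ⟨a, ha, m, I, hI, hmI, hz⟩ := hp (fun n => (x n : X)) (en S (o : X))
      (fun n => (hC _).1 (x n).2 _)
    obtain ⟨N, hN⟩ := exists_nat_gt (D + dist ((a m)⁻¹ • (o : X)) (o : X))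
    obtain ⟨n, hn, hNn⟩ := hI.exists_gt N
    have h2 := hx n ⟨(a m)⁻¹ * a n, hz n hn⟩
    have h3 : dist ((⟨(a m)⁻¹ * a n, hz n hn⟩ : Subgroup.centralizer (S : Set G)) • x n) o =
        dist ((a m)⁻¹ • (a n • (x n : X))) (o : X) := by
      rw [Subtype.dist_eq, smul_smul]
      rfl
    have h4 := dist_triangle ((a m)⁻¹ • (a n • (x n : X))) ((a m)⁻¹ • (o : X)) (o : X)
    rw [h.iso] at h4
    have h5 := ha n
    have h6 : (N : ℝ) < n := by exact_mod_cast hNn
    linarith
  · rintro n ⟨o, p, h1, h2⟩
    exact ⟨(o : X), fun i => (p i : X), h1, h2⟩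

end TitsLF
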