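import Pool.Agent.Helper35.TT.BLin

/-!
TS-04 CommEst. Commutators of affine isometries with small rotation parts.

PROOF. `A = A g`, `B = A k`, `x = a g`, `y = a k`, `c = a ⁅g, k⁆` (`⁅g, k⁆ = g * k * g⁻¹ * k⁻¹`), `C = A ⁅g, k⁆ = A B A⁻¹ B⁻¹`. `rot C ≤ 2 rot A rot B` (`rot_comm`). From `⁅g, k⁆ * (k * g) = g * k`: `c + C (y + B x) = x + A y`, so
`c = (x - C B x) + (A y - C y)`. `C B = A B A⁻¹`: `‖x - A B A⁻¹ x‖ = ‖A⁻¹ x - B A⁻¹ x‖ ≤ rot B ‖x‖` (`A⁻¹` is isometric; `rot_le`). `‖A y - C y‖ ≤ ‖A y - y‖ + ‖y - C y‖ ≤ (rot A + 2 rot A rot B) ‖y‖`.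
With `rot A ≤ δ`, `‖x‖ ≤ δ λ`, `rot B ≤ 1/6`, `‖y‖ ≤ λ/6`: `rot C ≤ δ/3 ≤ δ/2`, `‖c‖ ≤ (1/6) δ λ + δ (1 + 1/3) λ / 6 = (7/18) δ λ ≤ (δ/2) λ`.
-/

set_option autoImplicit false

namespace TitsLF

universe u v

theorem comm_est {G : Type u} [Group G] {E : Type v} [NormedAddCommGroup E]
    [InnerProductSpace ℝ E] (A : G →* (E ≃ₗᵢ[ℝ] E)) (a : G → E)
    (ha : ∀ g k, a (g * k) = a g + A g (a k)) {lam δ : ℝ} (hlam : 0 ≤ lam) (hδ : 0 ≤ δ) {g k : G}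
    (hg : rot (A g) ≤ δ) (hg' : ‖a g‖ ≤ δ * lam) (hk : rot (A k) ≤ 1 / 6)
    (hk' : ‖a k‖ ≤ 1 / 6 * lam) : rot (A (g * k * g⁻¹ * k⁻¹)) ≤ δ / 2 ∧
    ‖a (g * k * g⁻¹ * k⁻¹)‖ ≤ δ / 2 * lam := by
  have hA := rot_nonneg (A g)
  have hB := rot_nonneg (A k)
  have hAC : A (g * k * g⁻¹ * k⁻¹) = A g * A k * (A g)⁻¹ * (A k)⁻¹ := by
    rw [map_mul, map_mul, map_mul, map_inv, map_inv]
  have hC : rot (A (g * k * g⁻¹ * k⁻¹)) ≤ 2 * rot (A g) * rot (A k) := by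
    rw [hAC]
    exact rot_comm _ _
  have hAB : rot (A g) * rot (A k) ≤ δ * (1 / 6) := mul_le_mul hg hk hB hδ
  have hC' : rot (A (g * k * g⁻¹ * k⁻¹)) ≤ δ / 3 := by linarith
  refine ⟨by linarith, ?_⟩
  have h1 : a (g * k * g⁻¹ * k⁻¹) + A (g * k * g⁻¹ * k⁻¹) (a k + A k (a g)) =
      a g + A g (a k) := by
    rw [← ha k g, ← ha, ← ha]
    congr 1
    group
  have h2 : A (g * k * g⁻¹ * k⁻¹) (A k (a g)) = A g (A k ((A g).symm (a g))) := by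
    rw [hAC]
    show A g (A k ((A g).symm ((A k).symm (A k (a g))))) = _
    rw [(A k).symm_apply_apply]
  rw [map_add, h2] at h1
  have h3 : a (g * k * g⁻¹ * k⁻¹) = (a g - A g (A k ((A g).symm (a g)))) +
      ((A g (a k) - a k) - (A (g * k * g⁻¹ * k⁻¹) (a k) - a k)) := by
    rw [eq_comm, ← sub_eq_zero]
    rw [← sub_eq_zero] at h1
    rw [← neg_eq_zero, ← h1]
    abel
  have h4 : ‖a g - A g (A k ((A g).symm (a g)))‖ ≤ 1 / 6 * (δ * lam) := by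
    have h5 : a g - A g (A k ((A g).symm (a g))) =
        -(A g (A k ((A g).symm (a g)) - (A g).symm (a g))) := by
      rw [map_sub, (A g).apply_symm_apply, neg_sub]
    rw [h5, norm_neg, (A g).norm_map]
    refine (rot_le (A k) _).trans ?_
    rw [(A g).symm.norm_map]
    exact mul_le_mul hk hg' (norm_nonneg _) (by norm_num)
  have h6 : ‖A g (a k) - a k‖ ≤ δ * (1 / 6 * lam) :=
    (rot_le _ _).trans (mul_le_mul hg hk' (norm_nonneg _) hδ)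
  have h7 : ‖A (g * k * g⁻¹ * k⁻¹) (a k) - a k‖ ≤ δ / 3 * (1 / 6 * lam) :=
    (rot_le _ _).trans (mul_le_mul hC' hk' (norm_nonneg _) (by positivity))
  have h8 : 0 ≤ δ * lam := mul_nonneg hδ hlam
  have h9 : ‖a (g * k * g⁻¹ * k⁻¹)‖ ≤ 1 / 6 * (δ * lam) +
      (δ * (1 / 6 * lam) + δ / 3 * (1 / 6 * lam)) := by
    rw [h3]
    exact (norm_add_le _ _).trans (add_le_add h4 ((norm_sub_le _ _).trans (add_le_add h6 h7)))
  linarith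

end TitsLF
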