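import Pool.Agent.Helper35.TT.Defs

/-!
Project TS (MP_185419_al: every finitely generated subgroup of a CAT(0) group is virtually solvable or satisfies no law), definitions. The definitions of `TT/Defs.lean` are used
throughout (`CAT`, `IsMid`, `MConvex`, `MAffine`, `MClosed`, `Lip1`, `IsBus`, `fl`, `Frame`, `Act`, `Minimal`, `QInv`, `Reiter`, `LocFree`, `VSolv`).

* `WAct G X`: isometric actions on nonempty proper CAT(0) spaces (no properness or cocompactness of the action).
* `en S x = ∑ s ∈ S, dist x (s x)^2`.
-/

set_option autoImplicit false

namespace TitsLF

universe u v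

section
variable (G : Type u) (X : Type v) [Group G] [MetricSpace X] [MulAction G X]

/-- Isometric actions on nonempty proper CAT(0) spaces. -/
structure WAct : Prop where
  ne : Nonempty X
  iso : ∀ (g : G) (x y : X), dist (g • x) (g • y) = dist x y
  cat : CAT X
  prop : ∀ (x : X) (R : ℝ), IsCompact (Metric.closedBall x R)

end

/-- The energy of the point `x` for the finite set `S`. -/
noncomputable def en {G : Type u} {X : Type v} [Group G] [MetricSpace X] [MulAction G X]
    (S : Finset G) (x : X) : ℝ := ∑ s ∈ S, dist x (s • x) ^ 2

end TitsLF
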