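import Pool.Agent.Helper35.TF.CenCoc
import Pool.Agent.Helper35.TT.Quot
import Pool.Agent.Helper35.TT.CenBus

/-!
TF-09 Descend. The centralizer of an element of infinite order modulo this element acts geometrically on a space with smaller frames.

PROOF. `Z = centralizer {z}`. `act_centralizer` gives `C`, `exists_minimal` (for `Z` and `C`) gives `C'` with `Act Z C'`, `Minimal Z C'`, and frames of `C'` are frames of `C`, of `X`. `z' = ⟨z, _⟩ : Z` is central in `Z` and of infinite order, `N = Subgroup.zpowers z'`
is normal and central. `quot` gives `Y` with the action of `Q = Z ⧸ N`. `π = QuotientGroup.mk' N`, its kernel is `N`. If `g = z' ^ k` (`k : ℤ`) has finite order then `k = 0`.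
Second property: `central_bus` (in `TT/CenBus.lean`) gives for `Z`, `C'` and `z'` a function `b` with `QInv Z b`, `z' • x = fl b τ x`, `τ > 0`, so `b (z' • x) = b x - τ`. `χ g = b (g • x) - b x` does not depend on `x` and is additive, so it vanishes on commutators and on the subgroup
`commutator Z`; `χ (z' ^ k) = - k τ`, so an element `z' ^ k` of `commutator Z` is `1`. (For the induction over `commutator Z`: the homomorphism `Z →* Multiplicative ℝ`, `g ↦ ofAdd (χ g)`, has commutative target, so `commutator Z ≤ ker` by `Abelianization.commutator_subset_ker`.)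
-/

set_option autoImplicit false

namespace TitsLF

universe u v

theorem descend {G : Type u} {X : Type v} [Group G] [MetricSpace X] [MulAction G X]
    (h : Act G X) {z : G} (hz : ¬ IsOfFinOrder z) :
    ∃ (Q : Type u) (_ : Group Q) (Y : Type v) (_ : MetricSpace Y) (_ : MulAction Q Y)
      (π : Subgroup.centralizer ((({z} : Finset G)) : Set G) →* Q),
      Act Q Y ∧ (∀ n, Frame Y n → Frame X (n + 1)) ∧ Function.Surjective π ∧
      (∀ g, π g = 1 → g ∈ Subgroup.center (Subgroup.centralizer ((({z} : Finset G)) : Set G))) ∧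
      (∀ g, π g = 1 → IsOfFinOrder g → g = 1) ∧
      ∀ g, π g = 1 → g ∈ commutator (Subgroup.centralizer ((({z} : Finset G)) : Set G)) →
        g = 1 := by
  obtain ⟨C, hC, hCf⟩ := act_centralizer h {z}
  obtain ⟨C', hC', hmin, hCf'⟩ := exists_minimal hC
  have hzmem : z ∈ Subgroup.centralizer ((({z} : Finset G)) : Set G) := by
    rw [Subgroup.mem_centralizer_iff]
    intro w hw
    rw [Finset.coe_singleton, Set.mem_singleton_iff] at hw
    rw [hw]
  obtain ⟨z', hz'⟩ : ∃ z' : Subgroup.centralizer ((({z} : Finset G)) : Set G), (z' : G) = z :=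
    ⟨⟨z, hzmem⟩, rfl⟩
  have hcen : z' ∈ Subgroup.center (Subgroup.centralizer ((({z} : Finset G)) : Set G)) := by
    rw [Subgroup.mem_center_iff]
    intro g
    apply Subtype.ext
    have h1 := Subgroup.mem_centralizer_iff.1 g.2 z (by
      rw [Finset.coe_singleton]
      exact Set.mem_singleton z)
    rw [Subgroup.coe_mul, Subgroup.coe_mul, hz']
    exact h1.symm
  have hinfz : ¬ IsOfFinOrder z' := by
    intro h1
    apply hz
    rw [← hz']
    exact Submonoid.isOfFinOrder_coe.2 h1
  have hinj : Function.Injective (fun n : ℤ => z' ^ n) :=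
    injective_zpow_iff_not_isOfFinOrder.2 hinfz
  have hinf : ∀ n : ℕ, 0 < n → z' ^ n ≠ 1 := by
    intro n hn h1
    exact hinfz (isOfFinOrder_iff_pow_eq_one.2 ⟨n, hn, h1⟩)
  have hN : Subgroup.zpowers z' ≤
      Subgroup.center (Subgroup.centralizer ((({z} : Finset G)) : Set G)) := by
    rw [Subgroup.zpowers_le]
    exact hcen
  have : (Subgroup.zpowers z').Normal := by
    refine ⟨fun n hn g => ?_⟩
    have h1 := Subgroup.mem_center_iff.1 (hN hn) g
    rw [h1, mul_inv_cancel_right]
    exact hn
  obtain ⟨τ, b, hτ, hbus, haff, hq, hfl⟩ := central_bus hC' hmin hcen hinf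
  obtain ⟨Y, _, _, hY, hYf⟩ := quot hC' hmin hcen hinf (Subgroup.zpowers z') rfl
  obtain ⟨o⟩ := hC'.ne
  have hker : ∀ g, QuotientGroup.mk' (Subgroup.zpowers z') g = 1 → ∃ k : ℤ, z' ^ k = g := by
    intro g hg
    rw [QuotientGroup.mk'_apply, QuotientGroup.eq_one_iff] at hg
    exact Subgroup.mem_zpowers_iff.1 hg
  refine ⟨_, inferInstance, Y, inferInstance, inferInstance,
    QuotientGroup.mk' (Subgroup.zpowers z'), hY,
    fun n hn => hCf _ (hCf' _ (hYf n hn)), QuotientGroup.mk'_surjective _, ?_, ?_, ?_⟩
  · intro g hg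
    obtain ⟨k, rfl⟩ := hker g hg
    exact hN (Subgroup.zpow_mem_zpowers z' k)
  · intro g hg hfin
    obtain ⟨k, rfl⟩ := hker g hg
    obtain ⟨n, hn, h1⟩ := isOfFinOrder_iff_pow_eq_one.1 hfin
    have h2 : (fun n : ℤ => z' ^ n) (k * n) = (fun n : ℤ => z' ^ n) 0 := by
      change z' ^ (k * (n : ℤ)) = z' ^ (0 : ℤ)
      rw [zpow_mul, zpow_natCast, h1, zpow_zero]
    have h3 := hinj h2
    have h4 : k = 0 := by
      rcases mul_eq_zero.1 h3 with h5 | h5
      · exact h5
      · have : n = 0 := by exact_mod_cast h5
        omega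
    rw [h4, zpow_zero]
  · intro g hg hcom
    obtain ⟨k, rfl⟩ := hker g hg
    let χ : Subgroup.centralizer ((({z} : Finset G)) : Set G) →* Multiplicative ℝ :=
      { toFun := fun g => Multiplicative.ofAdd (b (g • o) - b o)
        map_one' := by rw [one_smul, sub_self, ofAdd_zero]
        map_mul' := by
          intro g g'
          rw [← ofAdd_add]
          congr 1
          have h1 := hq g (g' • o) o
          rw [mul_smul]
          linarith }
    have h1 : z' ^ k ∈ χ.ker := Abelianization.commutator_subset_ker χ hcom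
    rw [MonoidHom.mem_ker, map_zpow] at h1
    have h2 : χ z' = Multiplicative.ofAdd (-τ) := by
      change Multiplicative.ofAdd (b (z' • o) - b o) = _
      rw [← hfl, fl_val hbus hτ.le]
      congr 1
      ring
    rw [h2, ← ofAdd_zsmul, ofAdd_eq_one, zsmul_eq_mul, mul_eq_zero] at h1
    have h3 : k = 0 := by
      rcases h1 with h4 | h4
      · exact_mod_cast h4
      · linarith
    rw [h3, zpow_zero]

end TitsLF
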