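import Pool.Agent.Helper35.TF.Defs
import Pool.Agent.Helper35.TT.Seg

/-!
TF-05 Energy. The energy of a finite set attains its minimum.

PROOFS.
* `en_continuous`: `x ↦ s • x` is an isometry.
* `en_mconvex`: if `m` is the midpoint of `x, y` then `s • m` is the midpoint of `s • x, s • y` (`IsMid.map`), `dist m (s m) ≤ (dist x (s x) + dist y (s y))/2` (`mid_lip2`, `eq_mid`), and `((a+b)/2)^2 ≤ (a^2+b^2)/2`.
* `en_centralizer`: `dist (z x) (s z x) = dist (z x) (z s x)`.
* `pigeon` (`S` finite, `x : ℕ → X` with `en S (x n) ≤ M`): fix `o`, `D` from `coc o`; choose `a n` with `dist (a n • x n) o ≤ D`. For `s ∈ S` the conjugate `c = a n * s * (a n)⁻¹` satisfies `dist (c • (a n • x n)) (a n • x n) = dist (s • x n) (x n) ≤ √M`, so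
  `dist (c • o) o ≤ 2 D + √M`: the tuples `(a n * s * (a n)⁻¹)_{s ∈ S}` take finitely many values (`h.fin`). By the infinite pigeonhole principle (`Finite.exists_infinite_fiber`, as in `TT/Center.lean`, proof of `center_infinite`) there are an infinite set of `n` with the same
  tuple as some fixed `m` among them. For these `n`: `(a m)⁻¹ * a n` commutes with every `s ∈ S`.
* `en_attained`: let `I = ⨅ x, en S x` (bounded below by `0`), `x n` with `en S (x n) ≤ I + 1/(n+1)`. With `pigeon` (`m`, infinite set of `n`): `y n = ((a m)⁻¹ * a n) • x n` has the same energy and `dist (y n) ((a m)⁻¹ • o) ≤ D`. A cluster point of the `y n`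
  in the compact ball has energy `≤ I`.
-/

set_option autoImplicit false

namespace TitsLF

universe u v

variable {G : Type u} {X : Type v} [Group G] [MetricSpace X] [MulAction G X]

theorem en_continuous (hiso : ∀ (g : G) (x y : X), dist (g • x) (g • y) = dist x y)
    (S : Finset G) : Continuous (fun x : X => en S x) := by
  unfold en
  exact continuous_finsetSum _ fun s _ =>
    (continuous_id.dist (Isometry.of_dist_eq (hiso s)).continuous).pow 2

theorem en_mconvex [CAT X] (hiso : ∀ (g : G) (x y : X), dist (g • x) (g • y) = dist x y)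
    (S : Finset G) : MConvex (fun x : X => en S x) := by
  intro x y m h
  show ∑ s ∈ S, dist m (s • m) ^ 2 ≤
    (∑ s ∈ S, dist x (s • x) ^ 2 + ∑ s ∈ S, dist y (s • y) ^ 2) / 2
  rw [← Finset.sum_add_distrib, Finset.sum_div]
  refine Finset.sum_le_sum fun s _ => ?_
  have h1 := mid_lip2 x y (s • x) (s • y)
  have h2 : IsMid (s • x) (s • y) (s • m) := IsMid.map (f := fun x => s • x) (hiso s) h
  rw [← eq_mid h, ← eq_mid h2] at h1
  have h3 : (0:ℝ) ≤ dist m (s • m) := dist_nonneg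
  have h4 : dist m (s • m) ^ 2 ≤ ((dist x (s • x) + dist y (s • y)) / 2) ^ 2 :=
    pow_le_pow_left₀ h3 h1 2
  nlinarith [sq_nonneg (dist x (s • x) - dist y (s • y))]

theorem en_centralizer (hiso : ∀ (g : G) (x y : X), dist (g • x) (g • y) = dist x y)
    (S : Finset G) {z : G} (hz : z ∈ Subgroup.centralizer (S : Set G)) (x : X) :
    en S (z • x) = en S x := by
  unfold en
  refine Finset.sum_congr rfl fun s hs => ?_
  have h1 : s * z = z * s := Subgroup.mem_centralizer_iff.1 hz s hs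
  rw [← mul_smul, h1, mul_smul, hiso]

theorem pigeon (h : Act G X) (S : Finset G) (o : X) :
    ∃ D : ℝ, 0 ≤ D ∧ ∀ (x : ℕ → X) (M : ℝ), (∀ n, en S (x n) ≤ M) →
      ∃ a : ℕ → G, (∀ n, dist (a n • x n) o ≤ D) ∧
        ∃ (m : ℕ) (I : Set ℕ), I.Infinite ∧ m ∈ I ∧
          ∀ n ∈ I, (a m)⁻¹ * a n ∈ Subgroup.centralizer (S : Set G) := by
  classical
  obtain ⟨D, hD, hcoc⟩ := h.coc o
  refine ⟨D, hD, fun x M hM => ?_⟩
  choose a ha using fun n : ℕ => hcoc (x n)
  have hsx : ∀ (n : ℕ), ∀ s ∈ S, dist (s • x n) (x n) ≤ √M := by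
    intro n s hs
    have h1 : dist (x n) (s • x n) ^ 2 ≤ en S (x n) :=
      Finset.single_le_sum (f := fun s : G => dist (x n) (s • x n) ^ 2) (fun _ _ => sq_nonneg _) hs
    rw [dist_comm] at h1
    exact (le_abs_self _).trans (Real.abs_le_sqrt (h1.trans (hM n)))
  set T : Set G := {g : G | dist (g • o) o ≤ 2 * D + √M} with hT
  have : Finite T := h.fin o (2 * D + √M)
  have hmem : ∀ (n : ℕ), ∀ s ∈ S, a n * s * (a n)⁻¹ ∈ T := by
    intro n s hs
    change dist ((a n * s * (a n)⁻¹) • o) o ≤ 2 * D + √M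
    have h1 := dist_triangle4 ((a n * s * (a n)⁻¹) • o) ((a n * s * (a n)⁻¹) • (a n • x n))
      (a n • x n) o
    have h2 : dist ((a n * s * (a n)⁻¹) • o) ((a n * s * (a n)⁻¹) • (a n • x n)) ≤ D := by
      rw [h.iso, dist_comm]
      exact ha n
    have h3 : dist ((a n * s * (a n)⁻¹) • (a n • x n)) (a n • x n) ≤ √M := by
      have h4 : (a n * s * (a n)⁻¹) • (a n • x n) = a n • (s • x n) := by
        rw [mul_smul, mul_smul, inv_smul_smul]
      rw [h4, h.iso]
      exact hsx n s hs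
    have h5 := ha n
    linarith
  let F : ℕ → ({s // s ∈ S} → T) := fun n s => ⟨a n * s.1 * (a n)⁻¹, hmem n s.1 s.2⟩
  obtain ⟨y, hy⟩ := Finite.exists_infinite_fiber F
  obtain ⟨m⟩ : Nonempty (F ⁻¹' {y}) := inferInstance
  refine ⟨a, ha, m.1, F ⁻¹' {y}, Set.infinite_coe_iff.1 hy, m.2, fun n hn => ?_⟩
  rw [Subgroup.mem_centralizer_iff]
  intro s hs
  have h1 : F n = F m.1 := by
    have e1 : F n = y := hn
    have e2 : F m.1 = y := m.2
    rw [e1, e2]
  have h2 : a n * s * (a n)⁻¹ = a m.1 * s * (a m.1)⁻¹ :=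
    congrArg (fun t : T => t.1) (congrFun h1 ⟨s, hs⟩)
  calc s * ((a m.1)⁻¹ * a n) = (a m.1)⁻¹ * (a m.1 * s * (a m.1)⁻¹) * a n := by group
    _ = (a m.1)⁻¹ * (a n * s * (a n)⁻¹) * a n := by rw [h2]
    _ = (a m.1)⁻¹ * a n * s := by group

theorem en_attained (h : Act G X) (S : Finset G) : ∃ x : X, ∀ y : X, en S x ≤ en S y := by
  obtain ⟨o⟩ := h.ne
  have hnn : ∀ x : X, 0 ≤ en S x := fun x => Finset.sum_nonneg fun _ _ => sq_nonneg _
  have hbdd : BddBelow (Set.range fun x : X => en S x) := ⟨0, by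
    rintro _ ⟨x, rfl⟩
    exact hnn x⟩
  have : Nonempty X := ⟨o⟩
  have hex : ∀ n : ℕ, ∃ x : X, en S x < (⨅ x : X, en S x) + 1 / ((n : ℝ) + 1) := fun n =>
    exists_lt_of_ciInf_lt (lt_add_of_pos_right _ (by positivity))
  choose x hx using hex
  have hM : ∀ n, en S (x n) ≤ (⨅ x : X, en S x) + 1 := by
    intro n
    refine (hx n).le.trans (add_le_add_right ?_ _)
    rw [div_le_one (by positivity)]
    have : (0:ℝ) ≤ n := Nat.cast_nonneg n
    linarith
  obtain ⟨D, hD, hpig⟩ := pigeon h S o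
  obtain ⟨a, ha, m, J, hJ, -, hJc⟩ := hpig x _ hM
  obtain ⟨z, -, hz⟩ := (h.prop ((a m)⁻¹ • o) D).exists_isMinOn
    ⟨_, Metric.mem_closedBall_self hD⟩ (en_continuous h.iso S).continuousOn
  refine ⟨z, fun y => le_trans ?_ (ciInf_le hbdd y)⟩
  refine le_of_forall_pos_le_add fun ε hε => ?_
  obtain ⟨N, hN⟩ := exists_nat_one_div_lt hε
  obtain ⟨n, hnJ, hnN⟩ := hJ.exists_gt N
  have h1 : ((a m)⁻¹ * a n) • x n ∈ Metric.closedBall ((a m)⁻¹ • o) D := by
    rw [Metric.mem_closedBall, mul_smul, h.iso]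
    exact ha n
  have h2 : en S z ≤ en S (((a m)⁻¹ * a n) • x n) := hz h1
  rw [en_centralizer h.iso S (hJc n hnJ)] at h2
  have h3 : 1 / ((n : ℝ) + 1) ≤ 1 / ((N : ℝ) + 1) := by
    have : (N : ℝ) ≤ n := Nat.cast_le.2 hnN.le
    gcongr
  have h4 := hx n
  linarith

end TitsLF
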