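import Pool.Agent.Helper35.TF.CaseOneS
import Pool.Agent.Helper35.TF.CaseTwoS
import Pool.Agent.Helper35.TF.SubPart
import Pool.Agent.Helper35.TT.Proper

/-!
TS-10 FinalS. Finitely generated subgroups of CAT(0) groups are virtually solvable or locally free.
-/

set_option autoImplicit false

namespace TitsLF

universe u v

theorem strong_aux (n : ℕ) : ∀ (G : Type u) (X : Type v) [Group G] [MetricSpace X]
    [MulAction G X], Act G X → ¬ Frame X n → ∀ S : Finset G,
      ¬ LocFree (Subgroup.closure (S : Set G)) → VSolv (Subgroup.closure (S : Set G)) := by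
  induction n with
  | zero =>
    intro G X _ _ _ h hn
    obtain ⟨o⟩ := h.ne
    exact absurd ⟨o, Fin.elim0, fun i => i.elim0, fun i => i.elim0⟩ hn
  | succ n ih =>
    intro G X _ _ _ h hn S hS
    have hR : Reiter (Subgroup.closure (S : Set G)) := by
      by_contra hR
      exact hS (locFree_sub h _ hR)
    haveI : Group.FG (Subgroup.closure (S : Set G)) :=
      (Group.fg_iff_subgroup_fg _).2 ⟨S, rfl⟩
    rcases bus_or_vsolv (h.wact.sub (Subgroup.closure (S : Set G)))
      (fun x R => (h.fin x R).preimage (Subtype.val_injective.injOn)) hR hn with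
      ⟨b, hb, hq⟩ | hv
    · exact vsolv_of_bus h hn ih S hS hb hq
    · exact hv

theorem strong {G : Type u} {X : Type v} [Group G] [MetricSpace X] [MulAction G X]
    (h : Geom G X) (H : Subgroup G) (hH : H.FG) : VSolv H ∨ LocFree H := by
  have h1 := act_of_geom h
  obtain ⟨n, hn⟩ := frame_bdd h1
  obtain ⟨S, rfl⟩ := hH
  by_cases hS : LocFree (Subgroup.closure (S : Set G))
  · exact Or.inr hS
  · exact Or.inl (strong_aux n G X h1 hn S hS)

end TitsLF
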