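import Pool.Agent.Helper35.TF.Defs
import Pool.Agent.Helper35.TT.Mid

/-!
TF-12 Nearest. Nearest points in invariant closed convex sets are moved little.

PROOFS.
* `exists_nearest`: `C ∩ closedBall o (dist o c)` is compact and nonempty (`c ∈ C`), `x ↦ dist o x` attains its minimum there (`IsCompact.exists_isMinOn`), which is the minimum over `C`.
* `nearest_move`: `ρ = dist o p`, `D = dist o (g • o)`, `m = mid p (g • p) ∈ C` (`mid_spec`, `hm`), so `ρ ≤ dist o m`. `dist o (g • p) ≤ dist o (g • o) + dist (g • o) (g • p) = D + ρ`. `cn_mid`: `ρ^2 ≤ dist o m^2 ≤ ρ^2/2 + (ρ + D)^2/2 - dist p (g p)^2/4`.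
-/

set_option autoImplicit false

namespace TitsLF

universe u v

variable {G : Type u} {X : Type v} [Group G] [MetricSpace X] [MulAction G X]

theorem exists_nearest (hprop : ∀ (x : X) (R : ℝ), IsCompact (Metric.closedBall x R)) (o : X)
    {C : Set X} (hcl : IsClosed C) (hne : C.Nonempty) : ∃ p ∈ C, ∀ x ∈ C, dist o p ≤ dist o x := by
  obtain ⟨c, hc⟩ := hne
  have hK : IsCompact (C ∩ Metric.closedBall o (dist o c)) := (hprop o _).inter_left hcl
  have hcK : c ∈ C ∩ Metric.closedBall o (dist o c) :=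
    ⟨hc, by rw [Metric.mem_closedBall, dist_comm]⟩
  have hcont : Continuous fun x : X => dist o x := continuous_const.dist continuous_id
  obtain ⟨p, hp, hmin⟩ := hK.exists_isMinOn ⟨c, hcK⟩ hcont.continuousOn
  refine ⟨p, hp.1, fun x hx => ?_⟩
  by_cases h : dist o x ≤ dist o c
  · exact hmin ⟨hx, by rw [Metric.mem_closedBall, dist_comm]; exact h⟩
  · have h1 : dist o p ≤ dist o c := hmin hcK
    linarith

theorem nearest_move (h : WAct G X) (o : X) {C : Set X} (hm : MClosed C)
    (hinv : ∀ (g : G), ∀ x ∈ C, g • x ∈ C) {p : X} (hp : p ∈ C)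
    (hmin : ∀ x ∈ C, dist o p ≤ dist o x) (g : G) :
    dist p (g • p) ^ 2 ≤ 4 * dist o p * dist o (g • o) + 2 * dist o (g • o) ^ 2 := by
  haveI := h.cat
  have h1 : mid p (g • p) ∈ C := hm _ _ _ hp (hinv g p hp) (mid_spec p (g • p))
  have h2 := hmin _ h1
  have h3 := cn_mid o p (g • p)
  have h4 : dist o (g • p) ≤ dist o (g • o) + dist o p := by
    have h5 := dist_triangle o (g • o) (g • p)
    rw [h.iso] at h5
    exact h5
  have h6 : dist o p ^ 2 ≤ dist o (mid p (g • p)) ^ 2 := pow_le_pow_left₀ dist_nonneg h2 2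
  have h7 : dist o (g • p) ^ 2 ≤ (dist o (g • o) + dist o p) ^ 2 :=
    pow_le_pow_left₀ dist_nonneg h4 2
  nlinarith

end TitsLF
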