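import Pool.Agent.Helper35.TF.Defs
import Pool.Agent.Helper35.TT.BusEx
import Pool.Agent.Helper35.TT.Quad

/-!
TF-11 SlowBus. A sequence of points which tends to infinity and is moved sublinearly gives a fixed Busemann type function.

PROOF. `bus_of_seq h.prop o p hp` gives `b` and a filter `F ≤ atTop`, `F.NeBot`, with `dist x (p n) - dist o (p n) → b x` along `F`. For `g ∈ G`, `x y : X` (as in step 4 of `TT/Steep.lean`):
`b (g x) - b (g y) = lim_F (dist (g x) (p n) - dist (g y) (p n)) = lim_F (dist x (q n) - dist y (q n))` with `q n = g⁻¹ • p n`, and by `cross_tendsto` along `F` (`r n = dist o (p n)`: tends to `∞`, `dist o (p n) / r n → 1`,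
`dist (p n) (q n) / r n → 0` by `hs g⁻¹`) it equals `lim_F (dist x (p n) - dist y (p n)) = b x - b y`. (`tendsto_nhds_unique`.)
-/

set_option autoImplicit false

namespace TitsLF

open Filter Topology

universe u v

theorem bus_of_slow {G : Type u} {X : Type v} [Group G] [MetricSpace X] [MulAction G X]
    (h : WAct G X) (o : X) (p : ℕ → X) (hp : Tendsto (fun n => dist o (p n)) atTop atTop)
    (hs : ∀ g : G, Tendsto (fun n => dist (p n) (g • p n) / dist o (p n)) atTop (𝓝 0)) :
    ∃ b : X → ℝ, IsBus b ∧ QInv G b := by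
  have := h.cat
  obtain ⟨b, F, hF, hFle, hb, -, hlim, -⟩ := bus_of_seq h.prop o p hp
  refine ⟨b, hb, fun g y z => ?_⟩
  have hlim1 : Tendsto (fun n : ℕ => (dist (g • y) (p n) - dist (g • z) (p n))) F
      (𝓝 (b (g • y) - b (g • z))) := by
    have := (hlim (g • y)).sub (hlim (g • z))
    refine this.congr fun n => ?_
    ring
  have hlim2 : Tendsto (fun n : ℕ => (dist y (p n) - dist z (p n))) F (𝓝 (b y - b z)) := by
    have := (hlim y).sub (hlim z)
    refine this.congr fun n => ?_
    ring
  have hr : Tendsto (fun n : ℕ => dist o (p n)) F atTop := hp.mono_left hFle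
  have hp1 : Tendsto (fun n : ℕ => dist o (p n) / dist o (p n)) F (𝓝 1) := by
    refine tendsto_const_nhds.congr' ?_
    filter_upwards [hr.eventually_ge_atTop 1] with n hn
    rw [div_self (by linarith)]
  have hcross := cross_tendsto o y z p (fun n : ℕ => g⁻¹ • p n) (fun n : ℕ => dist o (p n))
    hr hp1 ((hs g⁻¹).mono_left hFle)
  have hinv : ∀ (u v : X), dist u (g⁻¹ • v) = dist (g • u) v := by
    intro u v
    rw [← h.iso g u (g⁻¹ • v), smul_inv_smul]
  have h5 := hlim1.sub hlim2
  have h6 : Tendsto (fun n : ℕ => (dist (g • y) (p n) - dist (g • z) (p n)) -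
      (dist y (p n) - dist z (p n))) F (𝓝 0) := by
    refine hcross.congr fun n => ?_
    rw [hinv, hinv]; ring
  have h7 := tendsto_nhds_unique h5 h6
  linarith

end TitsLF
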