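import Pool.Agent.Helper35.TF.Basic
import Pool.Agent.Helper35.TF.SlowBus
import Pool.Agent.Helper35.TF.Nearest

/-!
TF-13 MinEx. There is a fixed Busemann type function or a minimal invariant closed convex subset.

PROOF. Suppose there is no fixed Busemann type function. Fix `o`. Let `𝒮` be the set of the closed, nonempty, midpoint closed, invariant subsets of `X`.
Claim: for every nonempty chain `c ⊆ 𝒮` the intersection is nonempty. For `C ∈ c` let `δ C = Metric.infDist o C` (or the distance to the nearest point `exists_nearest`). (a) If `δ C ≤ R` for all `C ∈ c` then the sets `C ∩ closedBall o R` (`exists_nearest`) are compact, nonempty and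
directed, so their intersection is nonempty (`IsCompact.nonempty_iInter_of_directed_nonempty_isCompact_isClosed`, exactly as in `exists_minimal`, `TT/Minim.lean`). (b) Otherwise choose `C n ∈ c` and nearest points `p n ∈ C n` of `o` with `dist o (p n) > n`.
By `nearest_move` `dist (p n) (g p n)^2 ≤ 4 ρ D + 2 D^2` with `ρ = dist o (p n) → ∞`, `D = dist o (g o)`: `dist (p n) (g p n) / ρ → 0` (its square is at most `4 D/ρ + 2 D^2/ρ^2`). `bus_of_slow` gives a fixed Busemann type function, contradiction.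
Zorn (`zorn_superset`, as in `exists_minimal`) gives a minimal `C ∈ 𝒮`. `WAct G C` by `WAct.restrict`; `Minimal G C`: as in `exists_minimal` (copy). Frames: `Subtype.val` preserves distances.
-/

set_option autoImplicit false

namespace TitsLF

universe u v

open Filter Topology in
private theorem h13_bus {G : Type u} {X : Type v} [Group G] [MetricSpace X] [MulAction G X]
    (h : WAct G X) (o : X) (c : Set (Set X))
    (hcl : ∀ C ∈ c, IsClosed C) (hne : ∀ C ∈ c, C.Nonempty) (hm : ∀ C ∈ c, MClosed C)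
    (hinv : ∀ C ∈ c, ∀ (g : G), ∀ x ∈ C, g • x ∈ C)
    (hb : ¬ ∃ R : ℝ, ∀ C ∈ c, (C ∩ Metric.closedBall o R).Nonempty) :
    ∃ b : X → ℝ, IsBus b ∧ QInv G b := by
  have h1 : ∀ n : ℕ, ∃ C ∈ c, ∃ p ∈ C, (∀ x ∈ C, dist o p ≤ dist o x) ∧ (n : ℝ) < dist o p := by
    intro n
    by_contra hcon
    apply hb
    refine ⟨n, fun C hC => ?_⟩
    obtain ⟨p, hp, hmin⟩ := exists_nearest h.prop o (hcl C hC) (hne C hC)
    refine ⟨p, hp, ?_⟩
    rw [Metric.mem_closedBall, dist_comm]
    by_contra hlt
    exact hcon ⟨C, hC, p, hp, hmin, not_le.1 hlt⟩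
  choose C hC p hp hmin hlt using h1
  have htop : Tendsto (fun n => dist o (p n)) atTop atTop :=
    tendsto_atTop_mono (fun n => (hlt n).le) tendsto_natCast_atTop_atTop
  refine bus_of_slow h o p htop fun g => ?_
  obtain ⟨D, hD⟩ : ∃ D, D = dist o (g • o) := ⟨_, rfl⟩
  have hinvt : Tendsto (fun n => (dist o (p n))⁻¹) atTop (𝓝 0) := tendsto_inv_atTop_zero.comp htop
  have hup : Tendsto (fun n => Real.sqrt (4 * D * (dist o (p n))⁻¹
      + 2 * D ^ 2 * ((dist o (p n))⁻¹) ^ 2)) atTop (𝓝 0) := by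
    have h2 : Tendsto (fun n => 4 * D * (dist o (p n))⁻¹
      + 2 * D ^ 2 * ((dist o (p n))⁻¹) ^ 2) atTop (𝓝 (4 * D * 0 + 2 * D ^ 2 * 0 ^ 2)) :=
      (hinvt.const_mul _).add ((hinvt.pow 2).const_mul _)
    have h3 := (Real.continuous_sqrt.tendsto _).comp h2
    have h4 : Real.sqrt (4 * D * 0 + 2 * D ^ 2 * 0 ^ 2) = 0 := by norm_num
    rw [h4] at h3
    exact h3
  refine squeeze_zero (fun n => by positivity) (fun n => ?_) hup
  apply Real.le_sqrt_of_sq_le
  have hpos : 0 < dist o (p n) := lt_of_le_of_lt (Nat.cast_nonneg n) (hlt n)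
  have h5 := nearest_move h o (hm _ (hC n)) (hinv _ (hC n)) (hp n) (hmin n) g
  rw [← hD] at h5
  rw [div_pow, div_le_iff₀ (by positivity)]
  refine h5.trans (le_of_eq ?_)
  field_simp

theorem bus_or_minimal {G : Type u} {X : Type v} [Group G] [MetricSpace X] [MulAction G X]
    (h : WAct G X) : (∃ b : X → ℝ, IsBus b ∧ QInv G b) ∨
      ∃ C : SubMulAction G X, WAct G C ∧ Minimal G C ∧ ∀ n, Frame C n → Frame X n := by
  by_cases hbus : ∃ b : X → ℝ, IsBus b ∧ QInv G b
  · exact Or.inl hbus
  right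
  have := h.cat
  obtain ⟨o⟩ := h.ne
  obtain ⟨S, hS⟩ : ∃ S : Set (Set X), S = {C | IsClosed C ∧ C.Nonempty ∧ MClosed C ∧
    ∀ g : G, ∀ x ∈ C, g • x ∈ C} := ⟨_, rfl⟩
  have hclS : ∀ C ∈ S, IsClosed C := by
    intro C hC
    rw [hS] at hC
    exact hC.1
  obtain ⟨C, hC⟩ := zorn_superset S (by
    intro c hc hchain
    by_cases hce : c.Nonempty
    · refine ⟨⋂₀ c, ?_, fun s hs => Set.sInter_subset_of_mem hs⟩
      have : Nonempty c := hce.to_subtype
      have hb : ∃ R : ℝ, ∀ C ∈ c, (C ∩ Metric.closedBall o R).Nonempty := by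
        by_contra hb
        apply hbus
        refine h13_bus h o c (fun C hC => ?_) (fun C hC => ?_) (fun C hC => ?_)
          (fun C hC => ?_) hb
        · have h2 := hc hC
          rw [hS] at h2
          exact h2.1
        · have h2 := hc hC
          rw [hS] at h2
          exact h2.2.1
        · have h2 := hc hC
          rw [hS] at h2
          exact h2.2.2.1
        · have h2 := hc hC
          rw [hS] at h2
          exact h2.2.2.2
      obtain ⟨R, hmeet⟩ := hb
      have hK : IsCompact (Metric.closedBall o R) := h.prop o R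
      have h1 : (⋂ s : c, (s : Set X) ∩ Metric.closedBall o R).Nonempty := by
        apply IsCompact.nonempty_iInter_of_directed_nonempty_isCompact_isClosed
        · intro s t
          rcases hchain.total s.2 t.2 with h1 | h1
          · exact ⟨s, subset_rfl, Set.inter_subset_inter_left _ h1⟩
          · exact ⟨t, Set.inter_subset_inter_left _ h1, subset_rfl⟩
        · exact fun s => hmeet s s.2
        · exact fun s => hK.inter_left (hclS s (hc s.2))
        · exact fun s => (hclS s (hc s.2)).inter Metric.isClosed_closedBall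
      rw [hS]
      refine ⟨isClosed_sInter fun s hs => hclS s (hc hs), ?_, ?_, ?_⟩
      · obtain ⟨x, hx⟩ := h1
        refine ⟨x, fun s hs => ?_⟩
        exact (Set.mem_iInter.1 hx ⟨s, hs⟩).1
      · intro x y m hx hy hm s hs
        have h2 := hc hs
        rw [hS] at h2
        exact h2.2.2.1 x y m (hx s hs) (hy s hs) hm
      · intro g x hx s hs
        have h2 := hc hs
        rw [hS] at h2
        exact h2.2.2.2 g x (hx s hs)
    · refine ⟨Set.univ, ?_, fun s hs => absurd ⟨s, hs⟩ hce⟩
      rw [hS]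
      exact ⟨isClosed_univ, ⟨o, Set.mem_univ _⟩, fun _ _ _ _ _ _ => Set.mem_univ _,
        fun _ _ _ => Set.mem_univ _⟩)
  have hCS := hC.prop
  rw [hS] at hCS
  obtain ⟨hcl, hne, hmc, hinv⟩ := hCS
  refine ⟨⟨C, fun g x hx => hinv g x hx⟩, h.restrict _ hcl hne hmc, ?_, ?_⟩
  · intro C' hcl' hne' hmc' hinv'
    have hcle := hcl.isClosedEmbedding_subtypeVal
    have h1 : (Subtype.val '' C' : Set X) ∈ S := by
      rw [hS]
      refine ⟨hcle.isClosedMap _ hcl', hne'.image _, ?_, ?_⟩
      · rintro _ _ m ⟨x, hx, rfl⟩ ⟨y, hy, rfl⟩ hm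
        have hmC : m ∈ C := hmc _ _ m x.2 y.2 hm
        exact ⟨⟨m, hmC⟩, hmc' x y ⟨m, hmC⟩ hx hy hm, rfl⟩
      · rintro g _ ⟨x, hx, rfl⟩
        exact ⟨g • x, hinv' g x hx, rfl⟩
    have h2 : (Subtype.val '' C' : Set X) ⊆ C := by
      rintro _ ⟨x, -, rfl⟩
      exact x.2
    have h3 : C ⊆ (Subtype.val '' C' : Set X) := hC.le_of_le h1 h2
    rw [Set.eq_univ_iff_forall]
    intro x
    obtain ⟨y, hy, hyx⟩ := h3 x.2
    have : y = x := Subtype.ext hyx
    rw [← this]
    exact hy
  · rintro n ⟨o', p, h1, h2⟩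
    exact ⟨o', fun i => p i, h1, h2⟩

end TitsLF
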